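import Mathlib
import Pool.Agent.Lib.helper21.PR

set_option autoImplicit false

/-! Tagged finite forests with promises and clocks; retagging. -/

namespace Pool.Agent.H.MP_120e55_lc

open Pool.Agent.Lib.helper21.PR Set Encodable Ordinal

abbrev O := Ordinal.{0}
abbrev El := ℕ × O
abbrev St := List El
noncomputable abbrev oo : O := ω₁

@[ext] structure Cd where
  c : St
  L : Set (St × O)

def lt' (a b : O) : Prop := a < b ∨ b = oo
def tg (s : St) (i : ℕ) : O := (s.getD i (0, 0)).2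
def ok (s : St) (e : El) : Prop := e.1 < s.length → lt' e.2 (tg s e.1)
def Dat (t : Cd) (p : O → Prop) : Prop := (∀ e ∈ t.c, p e.2) ∧ ∀ l ∈ t.L, p l.2 ∧ ∀ e ∈ l.1, p e.2
def Val (t : Cd) : Prop := t.L.Finite ∧ Dat t (· ≤ oo) ∧
  ∀ l ∈ t.L, l.1.length = t.c.length ∧ l.2 ≠ 0 ∧ ∀ e ∈ l.1, lt' e.2 l.2
def resp (n : ℕ) (ec : El) (s : St) (h : O) : Prop := n ≤ ec.1 → ec.2 < h → ∃ e ∈ s, ec.2 ≤ e.2
def step (t t' : Cd) : Prop := Val t' ∧ ∃ ec, t'.c = t.c ++ [ec] ∧ ok t.c ec ∧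
  (∀ l' ∈ t'.L, ∃ l ∈ t.L, ∃ e, l'.1 = l.1 ++ [e] ∧ ok l.1 e) ∧
    ∀ l ∈ t.L, ∃ e, (l.1 ++ [e], l.2) ∈ t'.L ∧ resp t.c.length ec (l.1 ++ [e]) l.2
abbrev le := Relation.ReflTransGen step
def E (β a b : O) : Prop := a = b ∨ (β ≤ a ∧ β ≤ b)
def ES (β : O) (s s' : St) : Prop := List.Forall₂ (fun e e' => e.1 = e'.1 ∧ E β e.2 e'.2) s s'
def EL (β : O) (l l' : St × O) : Prop := ES β l.1 l'.1 ∧ E β l.2 l'.2
def EC (β : O) (t u : Cd) : Prop :=
  ES β t.c u.c ∧ (∀ l ∈ t.L, ∃ l' ∈ u.L, EL β l l') ∧ ∀ l' ∈ u.L, ∃ l ∈ t.L, EL β l l'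

theorem oo_add {a b : O} (ha : a < oo) (hb : b < oo) : a + b < oo := isPrincipal_add_omega 1 ha hb
theorem oo_mul {a b : O} (ha : a < oo) (hb : b < oo) : a * b < oo := isPrincipal_mul_omega 1 ha hb
theorem w_oo : (ω : O) < oo := omega0_lt_omega_one
theorem nat_oo (n : ℕ) : (n : O) < oo := (natCast_lt_omega0 n).trans w_oo
theorem oo_succ {a : O} (ha : a < oo) : a + 1 < oo := oo_add ha (by exact_mod_cast nat_oo 1)
theorem oo_pos : (0 : O) < oo := by exact_mod_cast nat_oo 0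

section
variable {β β' a b : O} {s s' : St} {t u t' : Cd}

theorem le.val (h : le t t') (k : Val t) : Val t' := by
  induction h with
  | refl => exact k
  | tail _ h _ => exact h.1

theorem E.symm (h : E β a b) : E β b a := h.imp Eq.symm And.symm
theorem E.mono (h : E β a b) (k : β' ≤ β) : E β' a b := h.imp_right fun z => ⟨k.trans z.1, k.trans z.2⟩
theorem E.eq (h : E β a b) (k : a < β) : a = b := h.resolve_right fun z => k.not_ge z.1
theorem E.le (h : E β a b) {r : O} (k : r ≤ a) (k' : r ≤ β) : r ≤ b := h.elim (· ▸ k) fun z => k'.trans z.2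
theorem E.min (β a : O) : E β a (min a β) := by
  rcases le_total a β with h | h
  · exact .inl (min_eq_left h).symm
  · exact .inr ⟨h, (min_eq_right h).ge⟩
theorem ES.symm (h : ES β s s') : ES β s' s := List.Forall₂.flip (h.imp fun _ _ z => ⟨z.1.symm, z.2.symm⟩)
theorem ES.mono (h : ES β s s') (k : β' ≤ β) : ES β' s s' := h.imp fun _ _ z => ⟨z.1, z.2.mono k⟩
theorem ES.rfl (β : O) (s : St) : ES β s s := List.forall₂_same.2 fun _ _ => ⟨Eq.refl _, .inl (Eq.refl _)⟩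
theorem ES.len (h : ES β s s') : s.length = s'.length := h.length_eq
theorem ES.fst (h : ES β s s') : s.map Prod.fst = s'.map Prod.fst := by
  induction h with
  | nil => rfl
  | cons h _ ih => simp [h.1, ih]
theorem ES.tg (h : ES β s s') (i : ℕ) : E β (tg s i) (tg s' i) := by
  induction h generalizing i with
  | nil => exact .inl (Eq.refl _)
  | cons h _ ih =>
    cases i with
    | zero => exact h.2
    | succ i => exact ih i
theorem ES.mem (h : ES β s s') {e : El} (k : e ∈ s) : ∃ e' ∈ s', E β e.2 e'.2 := by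
  induction h with
  | nil => cases k
  | cons h _ ih =>
    rcases List.mem_cons.1 k with rfl | k
    · exact ⟨_, List.mem_cons_self, h.2⟩
    · exact (ih k).imp fun _ z => ⟨List.mem_cons_of_mem _ z.1, z.2⟩
theorem ES.snoc (h : ES β s s') {e e' : El} (k : e.1 = e'.1) (k' : E β e.2 e'.2) : ES β (s ++ [e]) (s' ++ [e']) :=
  List.rel_append h (.cons ⟨k, k'⟩ .nil)
theorem EC.symm (h : EC β t u) : EC β u t :=
  ⟨h.1.symm, fun l z => (h.2.2 l z).imp fun _ y => ⟨y.1, y.2.1.symm, y.2.2.symm⟩,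
    fun l z => (h.2.1 l z).imp fun _ y => ⟨y.1, y.2.1.symm, y.2.2.symm⟩⟩
theorem EC.mono (h : EC β t u) (k : β' ≤ β) : EC β' t u :=
  ⟨h.1.mono k, fun l z => (h.2.1 l z).imp fun _ y => ⟨y.1, y.2.1.mono k, y.2.2.mono k⟩,
    fun l z => (h.2.2 l z).imp fun _ y => ⟨y.1, y.2.1.mono k, y.2.2.mono k⟩⟩

theorem lt'.min {h h' : O} (k : lt' a h) (e : E (β + 1) h h') : lt' (min a β) h' := by
  rcases e with rfl | e
  · exact k.imp_left fun z => (min_le_left _ _).trans_lt z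
  · exact .inl ((min_le_right _ _).trans_lt (Order.add_one_le_iff.1 e.2))

theorem ok.min {e : El} (k : ok s e) (h : ES (β + 1) s s') : ok s' (e.1, min e.2 β) :=
  fun z => (k (h.len ▸ z)).min (h.tg _)

theorem mirror1 (hβ : β ≤ oo) (h : EC (β + 1) t u) (hu : Val u) (k : step t t') :
    ∃ u', step u u' ∧ EC β t' u' := by
  classical
  obtain ⟨v, ec, k1, k2, k3, k4⟩ := k
  let ec' : El := (ec.1, if t.c.length ≤ ec.1 ∧ β ≤ ec.2 then oo else min ec.2 β)
  let ph : O → O → O → O := fun h h' x => if x = h then h' else if x ≤ β then x else oo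
  let S : Set ((St × O) × (St × O) × El × O) := {p | p.1 ∈ t.L ∧ p.2.1 ∈ u.L ∧ EL (β + 1) p.1 p.2.1 ∧
    (p.1.1 ++ [p.2.2.1], p.2.2.2) ∈ t'.L}
  let Φ : (St × O) × (St × O) × El × O → St × O := fun p =>
    (p.2.1.1 ++ [(p.2.2.1.1, min p.2.2.1.2 β)], ph p.1.2 p.2.1.2 p.2.2.2)
  have hok : ∀ p ∈ S, ok p.1.1 p.2.2.1 := fun p z => by
    obtain ⟨l, -, e, z1, z2⟩ := k3 _ z.2.2.2
    obtain ⟨y1, y2⟩ := List.append_inj' z1 rfl
    rw [y1, List.singleton_inj.1 y2]; exact z2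
  have hE : ∀ p ∈ S, EL β (p.1.1 ++ [p.2.2.1], p.2.2.2) (Φ p) := fun p z => by
    refine ⟨(z.2.2.1.1.mono le_self_add).snoc rfl (E.min _ _), ?_⟩
    show E β _ (ph _ _ _)
    simp only [ph]
    split_ifs with c c'
    · exact c ▸ z.2.2.1.2.mono le_self_add
    · exact .inl rfl
    · exact .inr ⟨(not_le.1 c').le, hβ⟩
  have fin : S.Finite := by
    have tf : t.L.Finite ∨ True := .inr trivial
    refine Finite.of_finite_image (f := fun p => (p.2.1, (p.1.1 ++ [p.2.2.1], p.2.2.2), p.1.2))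
      (((hu.1.prod (v.1.prod (v.1.image Prod.snd)))).subset ?_) ?_
    · rintro _ ⟨p, z, rfl⟩
      obtain ⟨e, y, -⟩ := k4 _ z.1
      exact ⟨z.2.1, z.2.2.2, _, y, rfl⟩
    · rintro ⟨⟨a1, a2⟩, a3, a4, a5⟩ - ⟨⟨b1, b2⟩, b3, b4, b5⟩ - z
      simp only [Prod.mk.injEq] at z
      obtain ⟨rfl, ⟨z, rfl⟩, rfl⟩ := z
      obtain ⟨rfl, y⟩ := List.append_inj' z rfl
      rw [List.singleton_inj.1 y]
  refine ⟨⟨u.c ++ [ec'], Φ '' S⟩, ⟨⟨fin.image _, ⟨fun e z => ?_, ?_⟩, ?_⟩, ec', rfl, fun z => ?_, ?_, fun l' z => ?_⟩,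
    ?_, fun l z => ?_, ?_⟩
  · rcases List.mem_append.1 z with z | z
    · exact hu.2.1.1 e z
    · rw [List.mem_singleton.1 z]
      show ite _ _ _ ≤ _
      split_ifs
      exacts [le_rfl, (min_le_right _ _).trans hβ]
  · rintro _ ⟨p, z, rfl⟩
    refine ⟨?_, fun e y => ?_⟩
    · show ph _ _ _ ≤ _
      simp only [ph]
      split_ifs with c c'
      exacts [(hu.2.1.2 _ z.2.1).1, c'.trans hβ, le_rfl]
    · rcases List.mem_append.1 y with y | y
      · exact (hu.2.1.2 _ z.2.1).2 e y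
      · rw [List.mem_singleton.1 y]; exact (min_le_right _ _).trans hβ
  · rintro _ ⟨p, z, rfl⟩
    obtain ⟨a1, a2, a3⟩ := hu.2.2 _ z.2.1
    obtain ⟨-, b2, b3⟩ := v.2.2 _ z.2.2.2
    refine ⟨by simp [Φ, a1], ?_, fun e y => ?_⟩
    · show ph _ _ _ ≠ _
      simp only [ph]
      split_ifs
      exacts [a2, b2, oo_pos.ne']
    · show lt' _ (ph _ _ _)
      simp only [ph]
      split_ifs with c c'
      · rcases List.mem_append.1 y with y | y
        · exact a3 e y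
        · rw [List.mem_singleton.1 y]
          exact (c ▸ b3 _ (List.mem_append_right _ List.mem_cons_self)).min z.2.2.1.2
      · obtain ⟨e', y1, y2⟩ := (hE p z).1.symm.mem y
        rcases b3 e' y1 with x | x
        · exact .inl (y2.symm.eq (x.trans_le c') ▸ x)
        · exact .inr x
      · exact .inr rfl
  · have z' : ec.1 < t.c.length := h.1.len ▸ z
    have : ec'.2 = min ec.2 β := if_neg fun y => z'.not_ge y.1
    rw [this]
    exact k2.min h.1 z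
  · rintro _ ⟨p, z, rfl⟩
    exact ⟨_, z.2.1, _, rfl, (hok p z).min z.2.2.1.1⟩
  · obtain ⟨l, a1, a2⟩ := h.2.2 l' z
    obtain ⟨e, b1, b2⟩ := k4 l a1
    have m : (l, l', e, l.2) ∈ S := ⟨a1, z, a2, b1⟩
    refine ⟨(e.1, min e.2 β), ⟨_, m, by simp [Φ, ph]⟩, fun x y => ?_⟩
    have x' : t.c.length ≤ ec.1 := h.1.len ▸ x
    by_cases c : β ≤ ec.2
    · have : ec'.2 = oo := if_pos ⟨x', c⟩
      rw [this] at y
      exact absurd (hu.2.1.2 _ z).1 y.not_ge
    · have c := not_le.1 c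
      have : ec'.2 = ec.2 := (if_neg fun y => c.not_ge y.2).trans (min_eq_left c.le)
      rw [this] at y ⊢
      obtain ⟨e', y1, y2⟩ := b2 x' (Order.add_one_le_iff.1
        (a2.2.symm.le (Order.add_one_le_iff.2 y) (add_le_add_left c.le 1)))
      obtain ⟨e'', y3, y4⟩ := (hE _ m).1.mem y1
      exact ⟨e'', y3, y4.le y2 c.le⟩
  · rw [k1]
    refine (h.1.mono le_self_add).snoc rfl ?_
    show E β _ (ite _ _ _)
    split_ifs with c
    exacts [.inr ⟨c.2, hβ⟩, E.min _ _]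
  · obtain ⟨l0, a1, e, a2, -⟩ := k3 l z
    obtain ⟨l', b1, b2⟩ := h.2.1 l0 a1
    have m : (l0, l', e, l.2) ∈ S := ⟨a1, b1, b2, a2 ▸ z⟩
    exact ⟨_, ⟨_, m, rfl⟩, by have := hE _ m; rwa [← a2] at this⟩
  · rintro _ ⟨p, z, rfl⟩
    exact ⟨_, z.2.2.2, hE p z⟩

theorem mirror (k : le t t') : ∃ N : ℕ, ∀ β u, β + N ≤ oo → EC (β + N) t u → Val u →
    ∃ u', le u u' ∧ EC β t' u' := by
  induction k with
  | refl => exact ⟨0, fun β u _ h _ => ⟨u, .refl, by simpa using h⟩⟩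
  | tail _ k ih =>
    obtain ⟨N, ih⟩ := ih
    refine ⟨N + 1, fun β u a b c => ?_⟩
    have e : β + ((N + 1 : ℕ) : O) = β + 1 + N := by
      rw [add_assoc, add_comm N 1]; push_cast; rfl
    rw [e] at a b
    obtain ⟨u1, a1, a2⟩ := ih (β + 1) u a b c
    obtain ⟨u2, b1, b2⟩ := mirror1 (le_trans (le_self_add.trans le_self_add) a) a2 (a1.val c) k
    exact ⟨u2, a1.tail b1, b2⟩
end

noncomputable def rg (l a : O) : O := if a < l then a else oo
noncomputable def rS (l : O) (s : St) : St := s.map fun e => (e.1, rg l e.2)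
noncomputable def rC (l : O) (t : Cd) : Cd := ⟨rS l t.c, (fun p => (rS l p.1, rg l p.2)) '' t.L⟩
def Bel (l : O) (t : Cd) : Prop := Dat t fun a => a < l ∨ a = oo
def astep (p q : Cd × St) : Prop := step p.1 q.1 ∧ ∃ e ec, q.2 = p.2 ++ [e] ∧ e.2 < oo ∧ (q.2, oo) ∈ q.1.L ∧
  q.1.c = p.1.c ++ [ec] ∧ resp p.1.c.length ec q.2 oo
abbrev ale := Relation.ReflTransGen astep
def Adm (p : Cd × St) : Prop := Val p.1 ∧ (p.2, oo) ∈ p.1.L ∧ ∀ e ∈ p.2, e.2 < oo

theorem ale.le {p q : Cd × St} (h : ale p q) : le p.1 q.1 := by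
  induction h with
  | refl => exact .refl
  | tail _ h ih => exact ih.tail h.1

theorem ale.adm {p q : Cd × St} (h : ale p q) (k : Adm p) : Adm q := by
  induction h with
  | refl => exact k
  | tail _ h ih =>
    obtain ⟨a, e, _, b, c, d, -⟩ := h
    refine ⟨a.1, d, fun x z => ?_⟩
    rw [b] at z
    exact (List.mem_append.1 z).elim (ih.2.2 x) fun z => List.mem_singleton.1 z ▸ c

section
variable {l a b : O} {s : St} {t t' : Cd}

theorem rg_lt (h : a < l) : rg l a = a := if_pos h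
theorem rg_ge (h : l ≤ a) : rg l a = oo := if_neg h.not_gt
theorem rg_E (hl : l ≤ oo) (a : O) : E l a (rg l a) :=
  (lt_or_ge a l).elim (fun h => .inl (rg_lt h).symm) fun h => .inr ⟨h, (rg_ge h).symm ▸ hl⟩
theorem rg_le (hl : l ≤ oo) (a : O) : rg l a ≤ oo :=
  (lt_or_ge a l).elim (fun h => (rg_lt h).symm ▸ h.le.trans hl) fun h => (rg_ge h).le
theorem lt'.rg (hl : l ≤ oo) (h : lt' a b) : lt' (rg l a) (rg l b) := by
  rcases lt_or_ge b l with c | c
  · rcases h with h | h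
    · rw [rg_lt c, rg_lt (h.trans c)]; exact .inl h
    · exact absurd (h ▸ c) hl.not_gt
  · exact .inr (rg_ge c)
theorem rS_E (hl : l ≤ oo) (s : St) : ES l s (rS l s) :=
  List.forall₂_map_right_iff.2 (List.forall₂_same.2 fun _ _ => ⟨rfl, rg_E hl _⟩)
theorem rS_len (s : St) : (rS l s).length = s.length := List.length_map _
theorem rS_snoc (s : St) (e : El) : rS l (s ++ [e]) = rS l s ++ [(e.1, rg l e.2)] := by simp [rS]
theorem rS_id (h : ∀ e ∈ s, e.2 < l ∨ e.2 = oo) (hl : l ≤ oo) : rS l s = s := by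
  refine (List.map_congr_left fun e z => ?_).trans (List.map_id _)
  rcases h e z with y | y
  · rw [rg_lt y]; rfl
  · rw [rg_ge (y ▸ hl), ← y]; rfl
theorem rC_E (hl : l ≤ oo) (t : Cd) : EC l t (rC l t) :=
  ⟨rS_E hl _, fun p z => ⟨_, ⟨p, z, rfl⟩, rS_E hl _, rg_E hl _⟩, by
    rintro _ ⟨p, z, rfl⟩; exact ⟨p, z, rS_E hl _, rg_E hl _⟩⟩
theorem rC_id (h : Bel l t) (hl : l ≤ oo) : rC l t = t := by
  refine Cd.ext (rS_id h.1 hl) ((image_congr fun p z => ?_).trans (image_id _))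
  rw [rS_id (h.2 p z).2 hl]
  rcases (h.2 p z).1 with y | y
  · rw [rg_lt y]; rfl
  · rw [rg_ge (y ▸ hl), ← y]; rfl
theorem rC_bel (t : Cd) : Bel l (rC l t) := by
  have : ∀ a, rg l a < l ∨ rg l a = oo := fun a =>
    (lt_or_ge a l).imp (fun h => (rg_lt h).symm ▸ h) rg_ge
  refine ⟨fun e z => ?_, ?_⟩
  · obtain ⟨e, -, rfl⟩ := List.mem_map.1 z
    exact this _
  · rintro _ ⟨p, -, rfl⟩
    refine ⟨this _, fun e z => ?_⟩
    obtain ⟨e, -, rfl⟩ := List.mem_map.1 z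
    exact this _
theorem ok.rg {e : El} (hl : l ≤ oo) (h : ok s e) : ok (rS l s) (e.1, rg l e.2) := fun z => by
  rw [rS_len] at z
  have : tg (rS l s) e.1 = MP_120e55_lc.rg l (tg s e.1) := by
    simp [tg, rS, List.getD_eq_getElem?_getD, List.getElem?_eq_getElem (show e.1 < s.length from z)]
  rw [this]
  exact (h z).rg hl
theorem resp.rg {n : ℕ} {ec : El} {h : O} (hl : l ≤ oo) (k : resp n ec s h) :
    resp n (ec.1, rg l ec.2) (rS l s) (rg l h) := fun x y => by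
  have c : ec.2 < l := by_contra fun c => by
    rw [rg_ge (not_lt.1 c)] at y
    exact y.not_ge (rg_le hl _)
  rw [rg_lt c] at y ⊢
  obtain ⟨e, y1, y2⟩ := k x ((lt_or_ge h l).elim (fun z => rg_lt z ▸ y) fun z => c.trans_le z)
  exact ⟨_, List.mem_map.2 ⟨e, y1, rfl⟩, (rg_E hl _).le y2 c.le⟩
theorem Val.rC (h0 : 0 < l) (hl : l ≤ oo) (h : Val t) : Val (rC l t) := by
  refine ⟨h.1.image _, ⟨fun e z => ((rC_bel t).1 e z).elim (fun y => y.le.trans hl) Eq.le, fun p z =>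
    ⟨((rC_bel t).2 p z).1.elim (fun y => y.le.trans hl) Eq.le, fun e y =>
      (((rC_bel t).2 p z).2 e y).elim (fun y => y.le.trans hl) Eq.le⟩⟩, ?_⟩
  rintro _ ⟨p, z, rfl⟩
  obtain ⟨a1, a2, a3⟩ := h.2.2 p z
  refine ⟨(rS_len _).trans (a1.trans (rS_len _).symm), ?_, fun e y => ?_⟩
  · exact (lt_or_ge p.2 l).elim (fun y => (rg_lt y).trans_ne a2) fun y => (rg_ge y).trans_ne oo_pos.ne'
  · obtain ⟨e, x, rfl⟩ := List.mem_map.1 y
    exact (a3 e x).rg hl
theorem step.rC (h0 : 0 < l) (hl : l ≤ oo) (h : step t t') : step (rC l t) (rC l t') := by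
  obtain ⟨v, ec, k1, k2, k3, k4⟩ := h
  refine ⟨v.rC h0 hl, (ec.1, rg l ec.2), by show rS l _ = _; rw [k1, rS_snoc]; rfl, k2.rg hl, ?_, ?_⟩
  · rintro _ ⟨p, z, rfl⟩
    obtain ⟨p', a1, e, a2, a3⟩ := k3 p z
    exact ⟨_, ⟨p', a1, rfl⟩, _, by show rS l _ = _; rw [a2, rS_snoc], a3.rg hl⟩
  · rintro _ ⟨p, z, rfl⟩
    obtain ⟨e, a1, a2⟩ := k4 p z
    refine ⟨(e.1, rg l e.2), ⟨_, a1, Prod.ext (rS_snoc _ _) rfl⟩, ?_⟩
    have := a2.rg hl
    rw [rS_snoc, ← rS_len (l := l) t.c] at this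
    exact this

theorem keep (h0 : 0 < l) (hl : l < oo) {d : St} (hd : (d, l) ∈ t.L) (hv : Val t) (h : le t t') :
    ∃ d', (d', l) ∈ t'.L ∧ ale (rC l t, d) (rC l t', d') := by
  induction h with
  | refl => exact ⟨d, hd, .refl⟩
  | @tail u u' _ k ih =>
    obtain ⟨d', a1, a2⟩ := ih
    have k' := k.rC h0 hl.le
    obtain ⟨v, ec, k1, -, -, k4⟩ := k
    obtain ⟨e, b1, b2⟩ := k4 _ a1
    have lt : ∀ x ∈ d' ++ [e], x.2 < l := fun x z => ((v.2.2 _ b1).2.2 x z).resolve_right hl.ne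
    have id := rS_id (fun x z => .inl (lt x z)) hl.le
    refine ⟨_, b1, a2.tail ⟨k', e, (ec.1, rg l ec.2), rfl, (lt e (by simp)).trans hl,
      ⟨_, b1, Prod.ext id (rg_ge le_rfl)⟩, by show rS l _ = _; rw [k1, rS_snoc]; rfl, ?_⟩⟩
    have := b2.rg hl.le
    rw [id, rg_ge le_rfl, ← rS_len (l := l) u.c] at this
    exact this

theorem Dat.bound (h : t.L.Finite) {P : O → O → Prop} (hP : ∀ l l' a, l ≤ l' → P l a → P l' a) {g : ℕ → O}
    (hg : Monotone g) (k : Dat t fun a => ∃ n, P (g n) a) : ∃ n, Dat t (P (g n)) := by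
  have ev : ∀ a, (∃ n, P (g n) a) → ∀ᶠ n in Filter.atTop, P (g n) a := fun a ⟨n, z⟩ =>
    (Filter.eventually_ge_atTop n).mono fun m y => hP _ _ _ (hg y) z
  exact (((Filter.eventually_all_finite (List.finite_toSet t.c)).2 fun e z => ev _ (k.1 e z)).and
    ((Filter.eventually_all_finite h).2 fun p z => (ev _ (k.2 p z).1).and
      ((Filter.eventually_all_finite (List.finite_toSet p.1)).2 fun e y => ev _ ((k.2 p z).2 e y)))).exists

theorem Bel.mono {l' : O} (h : Bel l t) (k : l ≤ l') : Bel l' t :=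
  ⟨fun e z => (h.1 e z).imp_left fun y => y.trans_le k, fun p z => ⟨(h.2 p z).1.imp_left fun y => y.trans_le k,
    fun e y => ((h.2 p z).2 e y).imp_left fun y => y.trans_le k⟩⟩

theorem Val.bel (h : Val t) : ∃ l < oo, Bel l t := by
  let D : Set O := {a | a < oo ∧ (a ∈ Prod.snd '' {e | e ∈ t.c} ∨ a ∈ Prod.snd '' t.L ∨
    a ∈ ⋃ p ∈ t.L, Prod.snd '' {e | e ∈ p.1})}
  have fin : D.Finite := ((((List.finite_toSet t.c).image _).union ((h.1.image _).union
    (h.1.biUnion fun p _ => (List.finite_toSet p.1).image _)))).subset fun _ z => z.2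
  have := fin.countable.to_subtype
  have key : ∀ a, a ≤ oo → (a < oo → a ∈ D) → a < (⨆ x : D, x.1 + 1) ∨ a = oo := fun a z y =>
    z.lt_or_eq.imp_left fun x => Order.add_one_le_iff.1 (Ordinal.le_iSup (fun x : D => x.1 + 1) ⟨a, y x⟩)
  exact ⟨_, Ordinal.iSup_lt_omega_one fun x : D => oo_succ x.2.1,
    fun e z => key _ (h.2.1.1 e z) fun y => ⟨y, .inl ⟨e, z, rfl⟩⟩, fun p z =>
      ⟨key _ (h.2.1.2 p z).1 fun y => ⟨y, .inr (.inl ⟨p, z, rfl⟩)⟩, fun e x =>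
        key _ ((h.2.1.2 p z).2 e x) fun y => ⟨y, .inr (.inr (mem_biUnion z ⟨e, x, rfl⟩))⟩⟩⟩
end

end Pool.Agent.H.MP_120e55_lc
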