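import Pool.Agent.H.MP_120e55_lc.A

set_option autoImplicit false

/-! Forcing rank bounds for relations enumerated from the generic object. -/

namespace Pool.Agent.H.MP_120e55_lc

open Pool.Agent.Lib.helper21.PR Set Encodable Ordinal

def dB (j : ℕ) : Bool × List ℕ := (decode (α := Bool × List ℕ) j).getD (false, [])
def yb (t : Cd) (j : ℕ) : Prop :=
  ((dB j).1 = true ∧ ∃ l ∈ t.L, (dB j).2 <+: l.1.map Prod.fst) ∨ ((dB j).1 = false ∧ (dB j).2 <+: t.c.map Prod.fst)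
noncomputable def yp (t : Cd) : List Bool := (List.range t.c.length).map fun j => cd (yb t j)
abbrev WW := ℕ × ℕ × List Bool → Prop
def dec (W : WW) (t : Cd) (a' a : ℕ) : Prop := ∃ m ≤ t.c.length, W (a', a, (yp t).take m)
def F (W : WW) (ξ : O) (t : Cd) (a : ℕ) : Prop :=
  ∀ t' a', le t t' → dec W t' a' a → ∃ t'' ξ', ∃ _ : ξ' < ξ, le t' t'' ∧ F W ξ' t'' a'
termination_by ξ
noncomputable def bt (ξ : O) : O := ω * ω * ξ + ω
def Bad (W : WW) (t : Cd) (a : ℕ) : Prop := ¬ ∃ t' ξ, ξ < oo ∧ le t t' ∧ F W ξ t' a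
def mk (t : Cd) (ec : El) (κ : St × O → El) (X : Set (St × O)) : Cd :=
  ⟨t.c ++ [ec], (fun l => (l.1 ++ [κ l], l.2)) '' t.L ∪ X⟩

theorem dB_len (j : ℕ) : (dB j).2.length ≤ j := by
  unfold dB
  cases h : decode (α := Bool × List ℕ) j with
  | none => exact Nat.zero_le _
  | some p =>
    have : encode p = j := by
      have := Denumerable.decode_eq_ofNat (List ℕ) j.unpair.2
      have h2 := (decode₂_eq_some (α := Bool × List ℕ) (n := j) (a := p))
      simp only [decode_prod_val, this, Option.map_some, Option.bind_eq_some_iff, Option.some.injEq] at h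
      obtain ⟨b, h, rfl⟩ := h
      have : encode b = j.unpair.1 := by
        rcases k : j.unpair.1 with _ | _ | n <;> rw [k] at h
        · cases h; rfl
        · cases h; rfl
        · rw [decode_ge_two _ (by omega)] at h; cases h
      rw [encode_prod_val, this, Denumerable.encode_ofNat, Nat.pair_unpair]
    exact (length_le_encode p.2).trans (this ▸ Nat.right_le_pair _ _)

section
variable {W : WW} {t u t' : Cd} {β ξ : O} {a a' : ℕ}

theorem EC.yp (h : EC β t u) : yp t = yp u := by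
  have : yb t = yb u := funext fun j => propext (or_congr (and_congr_right fun _ =>
    ⟨fun ⟨l, z, y⟩ => let ⟨l', x, x'⟩ := h.2.1 l z; ⟨l', x, x'.1.fst ▸ y⟩,
      fun ⟨l, z, y⟩ => let ⟨l', x, x'⟩ := h.2.2 l z; ⟨l', x, x'.1.fst ▸ y⟩⟩) (by rw [h.1.fst]))
  unfold MP_120e55_lc.yp
  rw [this, h.1.len]

theorem EC.dec (h : EC β t u) (k : dec W t a' a) : dec W u a' a := by
  unfold MP_120e55_lc.dec at *
  rwa [← h.yp, ← h.1.len]

theorem pre_snoc {α : Type*} {l s : List α} {x : α} (h : l.length ≤ s.length) : l <+: s ++ [x] ↔ l <+: s :=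
  ⟨fun k => List.prefix_of_prefix_length_le k (List.prefix_append _ _) h, fun k => k.trans (List.prefix_append _ _)⟩

theorem step.yb (h : step t t') (v : Val t) {j : ℕ} (k : j ≤ t.c.length) : yb t' j ↔ yb t j := by
  obtain ⟨-, ec, k1, -, k3, k4⟩ := h
  have := dB_len j
  refine or_congr (and_congr_right fun _ => ⟨fun ⟨l, z, y⟩ => ?_, fun ⟨l, z, y⟩ => ?_⟩) (and_congr_right fun _ => ?_)
  · obtain ⟨l', a1, e, a2, -⟩ := k3 l z
    rw [a2, List.map_append] at y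
    exact ⟨l', a1, (pre_snoc (by rw [List.length_map, (v.2.2 _ a1).1]; omega)).1 y⟩
  · obtain ⟨e, a1, -⟩ := k4 l z
    exact ⟨_, a1, y.trans (by rw [List.map_append]; exact List.prefix_append _ _)⟩
  · rw [k1, List.map_append]
    exact pre_snoc (by rw [List.length_map]; omega)

theorem step.len (h : step t t') : t'.c.length = t.c.length + 1 := by
  obtain ⟨-, ec, k1, -⟩ := h
  simp [k1]

theorem step.yp (h : step t t') (v : Val t) : yp t <+: yp t' := by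
  unfold MP_120e55_lc.yp
  rw [h.len, List.range_succ, List.map_append, List.map_congr_left (f := fun j => cd (MP_120e55_lc.yb t j))
    (g := fun j => cd (MP_120e55_lc.yb t' j)) fun j z => by rw [h.yb v (List.mem_range.1 z).le]]
  exact List.prefix_append _ _

theorem dec.mono (k : dec W t a' a) (h : le t t') (v : Val t) : dec W t' a' a := by
  induction h with
  | refl => exact k
  | tail h1 h ih =>
    obtain ⟨m, a1, a2⟩ := ih
    obtain ⟨r, e⟩ := h.yp (le.val h1 v)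
    refine ⟨m, by rw [h.len]; omega, ?_⟩
    rwa [← e, List.take_append_of_le_length (by simpa [yp] using a1)]

theorem F.mono (k : F W ξ t a) (h : le t t') : F W ξ t' a := by
  rw [F] at k ⊢
  exact fun u a' z => k u a' (h.trans z)

theorem Bad.mono (k : Bad W t a) (h : le t t') : Bad W t' a :=
  fun ⟨u, ξ, a1, a2, a3⟩ => k ⟨u, ξ, a1, h.trans a2, a3⟩

theorem bt_oo (h : ξ < oo) : bt ξ < oo := oo_add (oo_mul (oo_mul w_oo w_oo) h) w_oo

theorem bt_lt {ξ' : O} (h : ξ' < ξ) (N : ℕ) : bt ξ' + N ≤ ω * ω * ξ := by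
  have h1 : (ω : O) + N ≤ ω * ω := by
    calc (ω : O) + N ≤ ω + ω := add_le_add_right (natCast_lt_omega0 N).le _
      _ = ω * 2 := (Ordinal.mul_two _).symm
      _ ≤ ω * ω := mul_le_mul_right (by exact_mod_cast (natCast_lt_omega0 2).le) _
  calc bt ξ' + N = ω * ω * ξ' + (ω + N) := add_assoc _ _ _
    _ ≤ ω * ω * ξ' + ω * ω := add_le_add_right h1 _
    _ = ω * ω * (ξ' + 1) := by rw [mul_add_one]
    _ ≤ _ := mul_le_mul_right (Order.add_one_le_iff.2 h) _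

theorem F.retag (hξ : ξ < oo) (k : F W ξ t a) (h : EC (bt ξ) t u) (v : Val t) (v' : Val u) : F W ξ u a := by
  induction ξ using WellFoundedLT.induction generalizing t u a with
  | ind ξ ih =>
  rw [F] at k ⊢
  intro u' a' h1 h2
  obtain ⟨N, m⟩ := mirror h1
  have l : ω * ω * ξ + N ≤ bt ξ := add_le_add_right (natCast_lt_omega0 N).le _
  obtain ⟨t', a1, a2⟩ := m _ t (l.trans (bt_oo hξ).le) (h.symm.mono l) v
  obtain ⟨t'', ξ', b1, b2, b3⟩ := k t' a' a1 (a2.dec h2)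
  obtain ⟨N', m'⟩ := mirror b2
  obtain ⟨u'', c1, c2⟩ := m' _ u' ((bt_lt b1 N').trans (le_self_add.trans (bt_oo hξ).le))
    (a2.symm.mono (bt_lt b1 N')) (le.val h1 v')
  exact ⟨u'', ξ', b1, c1, ih ξ' b1 (b1.trans hξ) b3 c2 (le.val b2 (le.val a1 v)) (le.val c1 (le.val h1 v'))⟩

theorem AD {d : St} (h : Adm (t, d)) (hξ : ξ < oo) (k : le t t') (f : F W ξ t' a) :
    ∃ q, ale (t, d) q ∧ F W ξ q.1 a := by
  obtain ⟨N, m⟩ := mirror k
  obtain ⟨l0, a1, a2⟩ := h.1.bel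
  let l := l0 + 1 + (bt ξ + N)
  have l1 : l < oo := oo_add (oo_succ a1) (oo_add (bt_oo hξ) (nat_oo N))
  have l2 : bt ξ + N ≤ l := le_add_self
  have l3 : l0 ≤ l := le_self_add.trans le_self_add
  have l4 : 0 < l := (Order.add_one_le_iff.1 (add_le_add_left (zero_le) 1)).trans_le le_self_add
  have b := a2.mono l3
  have dl : ∀ e ∈ d, e.2 < l := fun e z => ((b.2 _ h.2.1).2 e z).resolve_right (h.2.2 e z).ne
  let u : Cd := ⟨t.c, insert (d, l) t.L⟩
  have v : Val u := ⟨h.1.1.insert _, ⟨h.1.2.1.1, forall_mem_insert.2 ⟨⟨l1.le, (h.1.2.1.2 _ h.2.1).2⟩, h.1.2.1.2⟩⟩,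
    forall_mem_insert.2 ⟨⟨(h.1.2.2 _ h.2.1).1, l4.ne', fun e z => .inl (dl e z)⟩, h.1.2.2⟩⟩
  have e1 : EC l t u := ⟨ES.rfl _ _, fun p z => ⟨p, .inr z, ES.rfl _ _, .inl rfl⟩,
    forall_mem_insert.2 ⟨⟨_, h.2.1, ES.rfl _ _, .inr ⟨l1.le, le_rfl⟩⟩, fun p z => ⟨p, z, ES.rfl _ _, .inl rfl⟩⟩⟩
  have e2 : rC l u = t := by
    have := rC_id b l1.le
    refine Cd.ext (congrArg Cd.c this :) ((image_insert_eq.trans ?_).trans (insert_eq_of_mem h.2.1))
    rw [rS_id (fun e z => .inl (dl e z)) l1.le, rg_ge le_rfl]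
    exact congrArg (insert _) (congrArg Cd.L this)
  obtain ⟨u', c1, c2⟩ := m _ u (l2.trans l1.le) (e1.mono l2) v
  obtain ⟨d', -, c3⟩ := keep (t := u) l4 l1 (mem_insert _ _) v c1
  have v' := le.val c1 v
  exact ⟨_, e2 ▸ c3, (f.retag hξ c2 (le.val k h.1) v').retag hξ ((rC_E l1.le _).mono (le_self_add.trans l2)) v'
    (v'.rC l4 l1.le)⟩

theorem mk_step {ec : El} {κ : St × O → El} {X : Set (St × O)} (v : Val t) (h1 : ec.2 ≤ oo) (h2 : ok t.c ec)
    (h3 : ∀ l ∈ t.L, ok l.1 (κ l) ∧ (κ l).2 ≤ oo ∧ lt' (κ l).2 l.2 ∧ resp t.c.length ec (l.1 ++ [κ l]) l.2)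
    (h4 : X.Finite) (h5 : ∀ x ∈ X, (∃ l ∈ t.L, x.1 = l.1 ++ [κ l]) ∧ x.2 ≤ oo ∧ x.2 ≠ 0 ∧ ∀ e ∈ x.1, lt' e.2 x.2) :
    step t (mk t ec κ X) := by
  have sn : ∀ {p : El → Prop} {s : St} {e}, (∀ x ∈ s, p x) → p e → ∀ x ∈ s ++ [e], p x := fun a b x z =>
    (List.mem_append.1 z).elim (a x) fun z => List.mem_singleton.1 z ▸ b
  refine ⟨⟨(v.1.image _).union h4, ⟨sn v.2.1.1 h1, ?_⟩, ?_⟩, ec, rfl, h2, ?_,
    fun l z => ⟨κ l, .inl ⟨l, z, rfl⟩, (h3 l z).2.2.2⟩⟩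
  · rintro x (⟨l, z, rfl⟩ | z)
    · exact ⟨(v.2.1.2 l z).1, sn (v.2.1.2 l z).2 (h3 l z).2.1⟩
    · obtain ⟨⟨l, y, e⟩, b⟩ := h5 x z
      exact ⟨b.1, e ▸ sn (v.2.1.2 l y).2 (h3 l y).2.1⟩
  · rintro x (⟨l, z, rfl⟩ | z)
    · exact ⟨by simp [mk, (v.2.2 l z).1], (v.2.2 l z).2.1, sn (v.2.2 l z).2.2 (h3 l z).2.2.1⟩
    · obtain ⟨⟨l, y, e⟩, b⟩ := h5 x z
      exact ⟨by simp [mk, e, (v.2.2 l y).1], b.2⟩
  · rintro x (⟨l, z, rfl⟩ | z)
    · exact ⟨l, z, _, rfl, (h3 l z).1⟩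
    · obtain ⟨⟨l, y, e⟩, -⟩ := h5 x z
      exact ⟨l, y, _, e, (h3 l y).1⟩

theorem cnt_Iio {l : O} (h : l < oo) : (Iio l).Countable := by
  rw [← Cardinal.le_aleph0_iff_set_countable, Cardinal.mk_Iio_ordinal, Cardinal.lift_le_aleph0,
    ← Cardinal.lt_aleph_one_iff]
  exact Cardinal.lt_ord.1 (by rwa [Cardinal.ord_aleph])

theorem cnt_bel {l : O} (h : l < oo) : {t | Val t ∧ Bel l t}.Countable := by
  let D : Set O := Iio l ∪ {oo}
  have hD : D.Countable := (cnt_Iio h).union (countable_singleton _)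
  have := hD.to_subtype
  let S : Set St := {s | ∀ e ∈ s, e.2 ∈ D}
  have hS : S.Countable := by
    refine (countable_range fun s : List (ℕ × D) => s.map fun e => (e.1, e.2.1)).mono fun s z => ?_
    exact ⟨s.attach.map fun e => (e.1.1, ⟨e.1.2, z _ e.2⟩), by simp [List.map_map, Function.comp_def, List.attach_map_subtype_val]⟩
  refine ((hS.prod (countable_setOf_finite_subset (hS.prod hD))).image fun p => (⟨p.1, p.2⟩ : Cd)).mono ?_
  rintro t ⟨v, b⟩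
  exact ⟨(t.c, t.L), ⟨b.1, v.1, fun p z => ⟨(b.2 p z).2, (b.2 p z).1⟩⟩, rfl⟩

theorem closure (g : Cd → ℕ → O) (hg : ∀ t a, g t a < oo) {l0 : O} (h : l0 < oo) :
    ∃ l < oo, l0 < l ∧ ∀ t a, Val t → Bel l t → g t a < l := by
  have st : ∀ l, ∃ l', l < oo → l' < oo ∧ l < l' ∧ ∀ t a, Val t → Bel l t → g t a < l' := fun l => by
    by_cases c : l < oo
    swap
    · exact ⟨0, fun z => (c z).elim⟩
    have := (cnt_bel c).to_subtype
    let f : {t | Val t ∧ Bel l t} × ℕ → O := fun p => g p.1 p.2 + 1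
    exact ⟨max (l + 1) (⨆ p, f p), fun _ => ⟨max_lt (oo_succ c) (Ordinal.iSup_lt_omega_one fun p => oo_succ (hg _ _)),
      (Order.add_one_le_iff.1 le_rfl).trans_le (le_max_left _ _), fun t a v b =>
        (Order.add_one_le_iff.1 (Ordinal.le_iSup f (⟨t, v, b⟩, a))).trans_le (le_max_right _ _)⟩⟩
  choose s hs using st
  let G : ℕ → O := fun n => s^[n] l0
  have e : ∀ n, G (n + 1) = s (G n) := fun n => Function.iterate_succ_apply' _ _ _
  have h1 : ∀ n, G n < oo := fun n => by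
    induction n with
    | zero => exact h
    | succ n ih => exact e n ▸ (hs _ ih).1
  have h2 : StrictMono G := strictMono_nat_of_lt_succ fun n => e n ▸ (hs _ (h1 n)).2.1
  refine ⟨⨆ n, G n, Ordinal.iSup_lt_omega_one h1, (h2 zero_lt_one).trans_le (Ordinal.le_iSup G 1), fun t a v b => ?_⟩
  have key : ∀ a, a < ⨆ n, G n ∨ a = oo → ∃ n, a < G n ∨ a = oo := fun a z =>
    z.elim (fun z => (Ordinal.lt_iSup_iff.1 z).imp fun _ => .inl) fun z => ⟨0, .inr z⟩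
  obtain ⟨n, z⟩ := Dat.bound v.1 (P := fun l a => a < l ∨ a = oo) (fun _ _ _ x y => y.imp_left fun y => y.trans_le x)
    h2.monotone ⟨fun e z => key _ (b.1 e z), fun p z => ⟨key _ (b.2 p z).1, fun e y => key _ ((b.2 p z).2 e y)⟩⟩
  exact ((hs _ (h1 n)).2.2 t a v z).trans_le (e n ▸ Ordinal.le_iSup G (n + 1))

theorem BL {d : St} (h : Adm (t, d)) (k : Bad W t a) : ∃ q a', ale (t, d) q ∧ dec W q.1 a' a ∧ Bad W q.1 a' := by
  by_contra z
  have ex : ∀ u a', ∃ ξ N : O, ξ < oo ∧ N < oo ∧ (Val u → ¬ Bad W u a' → ∃ u', F W ξ u' a' ∧ le u u' ∧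
      ∀ v, EC N u v → Val v → ∃ v', le v v' ∧ EC (bt ξ) u' v') := fun u a' => by
    by_cases c : Bad W u a'
    · exact ⟨0, 0, oo_pos, oo_pos, fun _ y => (y c).elim⟩
    obtain ⟨u', ξ, a1, a2, a3⟩ := not_not.1 c
    obtain ⟨N, m⟩ := mirror a2
    have := oo_add (bt_oo a1) (nat_oo N)
    exact ⟨ξ, _, a1, this, fun _ _ => ⟨u', a3, a2, fun v => m _ v this.le⟩⟩
  choose Ξ N h1 h2 h3 using ex
  obtain ⟨l0, a1, a2⟩ := h.1.bel
  obtain ⟨l, l1, l2, l3⟩ := closure (fun u a' => max (Ξ u a') (N u a')) (fun _ _ => max_lt (h1 _ _) (h2 _ _)) a1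
  have l4 : 0 < l := zero_le.trans_lt l2
  have b := a2.mono l2.le
  have dl : ∀ e ∈ d ++ [(t.c.length, 0)], e.2 < l := fun e z => (List.mem_append.1 z).elim
    (fun z => ((b.2 _ h.2.1).2 e z).resolve_right (h.2.2 e z).ne) fun z => List.mem_singleton.1 z ▸ l4
  have s1 : step t (mk t (t.c.length, oo) (fun _ => (t.c.length, 0)) {(d ++ [(t.c.length, 0)], l)}) :=
    mk_step h.1 le_rfl (fun z => (lt_irrefl _ z).elim) (fun p z => ⟨fun y => by
      rw [(h.1.2.2 p z).1] at y; exact (lt_irrefl _ y).elim, zero_le, .inl (pos_iff_ne_zero.2 (h.1.2.2 p z).2.1),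
        fun _ y => (y.not_ge (h.1.2.1.2 p z).1).elim⟩) (finite_singleton _)
      (by rintro _ rfl; exact ⟨⟨_, h.2.1, rfl⟩, l1.le, l4.ne', fun e z => .inl (dl e z)⟩)
  refine k ⟨_, l, l1, .single s1, ?_⟩
  rw [F]
  intro t' a' c1 c2
  obtain ⟨d', -, c3⟩ := keep (d := d ++ [(t.c.length, 0)]) l4 l1 (mem_union_right _ rfl) s1.1 c1
  have s2 := s1.rC l4 l1.le
  rw [rC_id b l1.le] at s2
  have s3 : astep (t, d) (_, d ++ [(t.c.length, 0)]) := ⟨s2, _, (t.c.length, oo), rfl, oo_pos,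
    ⟨_, .inr rfl, Prod.ext (rS_id (fun e z => .inl (dl e z)) l1.le) (rg_ge le_rfl)⟩, by
      show rS l (_ ++ _) = _
      rw [rS_snoc, rS_id b.1 l1.le, rg_ge l1.le], fun _ y => (lt_irrefl _ y).elim⟩
  have v' := le.val c1 s1.1
  have e := rC_E l1.le t'
  obtain ⟨u', d1, d2, d3⟩ := h3 _ a' (v'.rC l4 l1.le) fun y => z ⟨_, a', .head s3 c3, e.dec c2, y⟩
  have := max_lt_iff.1 (l3 _ a' (v'.rC l4 l1.le) (rC_bel _))
  obtain ⟨v'', d4, d5⟩ := d3 t' (e.symm.mono this.2.le) v'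
  exact ⟨v'', _, this.1, d4, d1.retag (h1 _ _) d5 (le.val d2 (v'.rC l4 l1.le)) (le.val d4 v')⟩
end

end Pool.Agent.H.MP_120e55_lc
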