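import Pool.Agent.H.MP_120e55_lc.B
import Pool.Agent.H.MP_64713a_lc.D

set_option autoImplicit false

/-! Forcing tree embeddings for quadruples of branches. -/

namespace Pool.Agent.H.MP_120e55_lc

open Pool.Agent.Lib.helper21.PR Set Encodable Denumerable Nat.Partrec Nat.Partrec.Code
open MP_64713a_lc (Pos nx sx rt dS)

abbrev Q := Fin 4 → St
abbrev KK := Fin 4 → Prop
def qstep (K : KK) (q q' : Q) : Prop := ∃ e : Fin 4 → El,
  (∀ i, q' i = q i ++ [e i] ∧ ok (q i) (e i) ∧ (e i).2 ≤ oo ∧ (K i → (e i).2 < oo)) ∧ ∀ i j, q i = q j → e i = e j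
abbrev qle (K : KK) := Relation.ReflTransGen (qstep K)
def hat (x : ℕ → ℕ) (j : ℕ) : Bool := decide (dS j = (List.range (dS j).length).map x)
def join (x : Fin 4 → ℕ → Bool) (n : ℕ) : Bool := x (Fin.ofNat 4 n) (n / 4)
def xf (s : St) (i : ℕ) : ℕ := (s.getD i (0, 0)).1
def zp (q : Q) (m : ℕ) : List Bool := (List.range m).map (join fun i => hat (xf (q i)))
def ref (c n : ℕ) (q : Q) (s : List ℕ) : Prop := ∃ m < s.length, (∀ i, m ≤ (q i).length) ∧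
  ((ofNat Code c).eval (encode (n, zp q m, s.take m))).Dom
def DD (W : Q → Pos → Prop) (τ : Pos) (q : Q) : Prop := ref τ.1 τ.2.2.1 q τ.2.2.2.1 ∨ ∃ m, W q (nx τ m)
def Post (K : KK) (W : Q → Pos → Prop) : Prop := ∀ q p, W q p → ¬ ref p.2.1 p.2.2.1 q p.2.2.2.2 ∧
  (∀ q', qle K q q' → W q' p) ∧ ∀ m, ∃ q', qle K q q' ∧ DD W (sx p m) q'
def Z (K : KK) (q : Q) (p : Pos) : Prop := ∃ W, Post K W ∧ W q p
def fl (q : Pos) : Pos := (q.2.1, q.1, q.2.2.1, q.2.2.2.2, q.2.2.2.1)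
def Act (K : KK) (q : Q) (c c' n : ℕ) (b : Bool) : Prop :=
  (b = true ∧ Z K q (rt c c' n)) ∨ (b = false ∧ ∃ m, Z K q (nx (rt c' c n) m))
def Rz (p : Cd × St) (K : KK) (q : Q) : Prop :=
  ∀ i, (K i → q i = p.2) ∧ (¬ K i → (q i, oo) ∈ p.1.L ∧ ∃ e ∈ q i, e.2 = oo)
def kstep (p p' : Cd × St) : Prop := astep p p' ∧ ∃ κ : St × O → El,
  p'.1.L = (fun l => (l.1 ++ [κ l], l.2)) '' p.1.L ∧ p'.2 = p.2 ++ [κ (p.2, oo)]
abbrev kle := Relation.ReflTransGen kstep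

theorem dS_len (j : ℕ) : (dS j).length ≤ j := by
  unfold dS
  rw [decode_eq_ofNat, Option.getD_some]
  exact (length_le_encode _).trans (encode_ofNat j).le

theorem hat_congr {x x' : ℕ → ℕ} {j : ℕ} (h : ∀ i < j, x i = x' i) : hat x j = hat x' j := by
  unfold hat
  rw [List.map_congr_left fun i z => h i ((List.mem_range.1 z).trans_le (dS_len j))]

theorem join_congr {x x' : Fin 4 → ℕ → ℕ} {m : ℕ} (h : ∀ k, ∀ i < m, x k i = x' k i) :
    (List.range m).map (join fun k => hat (x k)) = (List.range m).map (join fun k => hat (x' k)) :=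
  List.map_congr_left fun n z => hat_congr fun i y =>
    h _ i (y.trans_le ((Nat.div_le_self _ _).trans (List.mem_range.1 z).le))

theorem getD_pre {s s' : St} (h : s <+: s') {i : ℕ} (k : i < s.length) : s'.getD i (0, 0) = s.getD i (0, 0) := by
  obtain ⟨t, rfl⟩ := h
  simp [List.getD_eq_getElem?_getD, List.getElem?_append_left k]

section
variable {K : KK} {q q' : Q} {p : Pos} {c c' n : ℕ}

theorem qle.pre (h : qle K q q') (i : Fin 4) : q i <+: q' i := by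
  induction h with
  | refl => exact List.prefix_rfl
  | tail _ h ih =>
    obtain ⟨e, h, -⟩ := h
    exact ih.trans ((h i).1 ▸ List.prefix_append _ _)

theorem ref.mono {s : List ℕ} (k : ref c n q s) (h : qle K q q') : ref c n q' s := by
  obtain ⟨m, a1, a2, a3⟩ := k
  refine ⟨m, a1, fun i => (a2 i).trans (h.pre i).length_le, ?_⟩
  rwa [show zp q' m = zp q m from join_congr fun k i z => congrArg Prod.fst (getD_pre (h.pre k) (z.trans_le (a2 k)))]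

theorem Z_post (K : KK) : Post K (Z K) := fun q p ⟨W, h, k⟩ =>
  ⟨(h q p k).1, fun q' z => ⟨W, h, (h q p k).2.1 q' z⟩, fun m => ((h q p k).2.2 m).imp fun _ z =>
    ⟨z.1, z.2.imp_right fun ⟨m', y⟩ => ⟨m', W, h, y⟩⟩⟩

theorem Z.mono (k : Z K q p) (h : qle K q q') : Z K q' p := (Z_post K q p k).2.1 q' h

theorem DD.mono {τ : Pos} (k : DD (Z K) τ q) (h : qle K q q') : DD (Z K) τ q' :=
  k.imp (·.mono h) fun ⟨m, z⟩ => ⟨m, z.mono h⟩

theorem Act.mono {b : Bool} (k : Act K q c c' n b) (h : qle K q q') : Act K q' c c' n b :=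
  k.imp (fun z => ⟨z.1, z.2.mono h⟩) fun ⟨z, m, y⟩ => ⟨z, m, y.mono h⟩

theorem Z_add (h : ∀ q', qle K q q' → ¬ ref p.2.1 p.2.2.1 q' p.2.2.2.2 ∧
    ∀ m, ∃ q'', qle K q' q'' ∧ DD (Z K) (sx p m) q'') : Z K q p := by
  refine ⟨fun q' p' => (p' = p ∧ qle K q q') ∨ Z K q' p', ?_, .inl ⟨rfl, .refl⟩⟩
  rintro q' p' (⟨rfl, z⟩ | z)
  · exact ⟨(h q' z).1, fun _ y => .inl ⟨rfl, z.trans y⟩, fun m => ((h q' z).2 m).imp fun _ y =>
      ⟨y.1, y.2.imp_right fun ⟨m', x⟩ => ⟨m', .inr x⟩⟩⟩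
  · exact ⟨(Z_post K _ _ z).1, fun _ y => .inr (z.mono y), fun m => ((Z_post K _ _ z).2.2 m).imp fun _ y =>
      ⟨y.1, y.2.imp_right fun ⟨m', x⟩ => ⟨m', .inr x⟩⟩⟩

theorem Z_fl (h : ∀ q', qle K q q' → ¬ DD (Z K) (fl p) q') : Z K q p := by
  refine ⟨fun q p => ∀ q', qle K q q' → ¬ DD (Z K) (fl p) q', fun q p h =>
    ⟨fun z => h q .refl (.inl z), fun _ z _ y => h _ (z.trans y), fun m' => by_contra fun z => ?_⟩, h⟩
  refine h q .refl (.inr ⟨m', Z_add fun q' y => ⟨fun x => z ⟨q', y, .inl x⟩, fun m => by_contra fun x => ?_⟩⟩)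
  exact z ⟨q', y, .inr ⟨m, fun q'' w v => x ⟨q'', w, v⟩⟩⟩

theorem exAct (K : KK) (q : Q) (c c' n : ℕ) : ∃ b q', qle K q q' ∧ Act K q' c c' n b := by
  by_contra z
  refine z ⟨true, q, .refl, .inl ⟨rfl, Z_add fun q' y => ⟨fun ⟨_, x, _⟩ => absurd x (Nat.not_lt_zero _),
    fun m => by_contra fun x => ?_⟩⟩⟩
  exact z ⟨false, q', y, .inr ⟨rfl, m, Z_fl fun q'' w v => x ⟨q'', w, v⟩⟩⟩
end

section
variable {K : KK} {q q' : Q} {p p' : Cd × St}

theorem kle.ale (h : kle p p') : ale p p' := by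
  induction h with
  | refl => exact .refl
  | tail _ k ih => exact ih.tail k.1

theorem step.ok {t t' : Cd} (h : step t t') {s : St} {e : El} {a : O} (k : (s ++ [e], a) ∈ t'.L) : ok s e := by
  obtain ⟨-, _, -, -, k3, -⟩ := h
  obtain ⟨l, -, e', z1, z2⟩ := k3 _ k
  obtain ⟨y1, y2⟩ := List.append_inj' z1 rfl
  rw [y1, List.singleton_inj.1 y2]; exact z2

theorem Rz.mem (h : Rz p K q) (a : Adm p) (i : Fin 4) : (q i, oo) ∈ p.1.L := by
  by_cases c : K i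
  · exact (h i).1 c ▸ a.2.1
  · exact ((h i).2 c).1

theorem kle.up (h : kle p p') (a : Adm p) (r : Rz p K q) : ∃ q', qle K q q' ∧ Rz p' K q' := by
  induction h with
  | refl => exact ⟨q, .refl, r⟩
  | @tail p1 p2 h k ih =>
    obtain ⟨q1, a1, a2⟩ := ih
    obtain ⟨k, κ, b1, b2⟩ := k
    have ad := ale.adm (kle.ale h) a
    have ad' := ale.adm (.single k) ad
    have m : ∀ i, (q1 i ++ [κ (q1 i, oo)], oo) ∈ p2.1.L := fun i => b1 ▸ ⟨_, a2.mem ad i, rfl⟩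
    refine ⟨fun i => q1 i ++ [κ (q1 i, oo)], a1.tail ⟨fun i => κ (q1 i, oo), fun i => ⟨rfl, k.1.ok (m i),
      (ad'.1.2.1.2 _ (m i)).2 _ (by simp), fun z => ad'.2.2 _ (by simp [b2, (a2 i).1 z])⟩, fun i j z => by simp only [z]⟩,
      fun i => ⟨fun z => by simp only [b2, (a2 i).1 z], fun z => ⟨m i, ?_⟩⟩⟩
    exact ((a2 i).2 z).2.imp fun e y => ⟨List.mem_append_left _ y.1, y.2⟩

theorem kle.uniq (h : kle p p') (v : Val p.1) {s s1 s2 : St} (l : s.length = p.1.c.length)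
    (h1 : (s1, oo) ∈ p'.1.L) (h2 : (s2, oo) ∈ p'.1.L) (k1 : s <+: s1) (k2 : s <+: s2) : s1 = s2 := by
  have mono : ∀ {p p' : Cd × St}, kle p p' → p.1.c.length ≤ p'.1.c.length := fun h => by
    induction h with
    | refl => exact le_rfl
    | tail _ k ih => rw [k.1.1.len]; omega
  induction h generalizing s1 s2 with
  | refl =>
    exact (k1.eq_of_length (l.trans (v.2.2 _ h1).1.symm)).symm.trans (k2.eq_of_length (l.trans (v.2.2 _ h2).1.symm))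
  | @tail p1 p2 h k ih =>
    obtain ⟨-, κ, b1, -⟩ := k
    have v' := le.val (ale.le (kle.ale h)) v
    rw [b1] at h1 h2
    obtain ⟨⟨a1, a2⟩, a3, a4⟩ := h1
    obtain ⟨⟨c1, c2⟩, c3, c4⟩ := h2
    obtain ⟨rfl, rfl⟩ := Prod.mk.inj a4
    obtain ⟨rfl, rfl⟩ := Prod.mk.inj c4
    have := mono h
    rw [ih a3 c3 ((pre_snoc (l.le.trans (this.trans (v'.2.2 _ a3).1.ge))).1 k1)
      ((pre_snoc (l.le.trans (this.trans (v'.2.2 _ c3).1.ge))).1 k2)]

theorem kle.uniq' (h : kle p p') (a : Adm p) (r : Rz p K q) {q1 q2 : Q} (r1 : Rz p' K q1) (r2 : Rz p' K q2)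
    (k1 : ∀ i, q i <+: q1 i) (k2 : ∀ i, q i <+: q2 i) : q1 = q2 :=
  have a' := ale.adm h.ale a
  funext fun i => h.uniq a.1 (a.1.2.2 _ (r.mem a i)).1 (r1.mem a' i) (r2.mem a' i) (k1 i) (k2 i)

theorem kmk (a : Adm p) {ec : El} {κ : St × O → El} (h1 : ec.2 ≤ oo) (h2 : ok p.1.c ec)
    (h3 : ∀ l ∈ p.1.L, ok l.1 (κ l) ∧ (κ l).2 ≤ oo ∧ lt' (κ l).2 l.2 ∧ resp p.1.c.length ec (l.1 ++ [κ l]) l.2)
    (h4 : (κ (p.2, oo)).2 < oo) : kstep p (mk p.1 ec κ ∅, p.2 ++ [κ (p.2, oo)]) :=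
  ⟨⟨mk_step a.1 h1 h2 h3 finite_empty fun _ z => z.elim, _, ec, rfl, h4, .inl ⟨_, a.2.1, rfl⟩, rfl,
    (h3 _ a.2.1).2.2.2⟩, κ, union_empty _, rfl⟩

theorem Rz.ext (r : Rz p K q) (a : Adm p) (h : qle K q q') : ∃ p', kle p p' ∧ Rz p' K q' := by
  classical
  induction h with
  | refl => exact ⟨p, .refl, r⟩
  | @tail q1 q2 _ k ih =>
    obtain ⟨p1, a1, a2⟩ := ih
    obtain ⟨e, b1, b2⟩ := k
    have ad := ale.adm (kle.ale a1) a
    let κ : St × O → El := fun l => if h : ∃ i, l = (q1 i, oo) then e h.choose else (p1.1.c.length, 0)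
    have hκ : ∀ i, κ (q1 i, oo) = e i := fun i => by
      have : ∃ j, (q1 i, oo) = (q1 j, oo) := ⟨i, rfl⟩
      exact (dif_pos this).trans (b2 _ _ (congrArg Prod.fst this.choose_spec)).symm
    have ks := kmk ad (ec := (p1.1.c.length, oo)) (κ := κ) le_rfl (fun z => (lt_irrefl _ z).elim) (fun l z => by
      have rs : resp p1.1.c.length (p1.1.c.length, oo) (l.1 ++ [κ l]) l.2 :=
        fun _ y => (y.not_ge (ad.1.2.1.2 l z).1).elim
      by_cases c : ∃ i, l = (q1 i, oo)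
      · obtain ⟨i, rfl⟩ := c
        rw [hκ] at rs ⊢
        exact ⟨(b1 i).2.1, (b1 i).2.2.1, .inr rfl, rs⟩
      · have : κ l = (p1.1.c.length, 0) := dif_neg c
        rw [this] at rs ⊢
        exact ⟨fun y => by rw [(ad.1.2.2 l z).1] at y; exact (lt_irrefl _ y).elim, zero_le,
          .inl (pos_iff_ne_zero.2 (ad.1.2.2 l z).2.1), rs⟩) (by
      by_cases c : ∃ i, (p1.2, oo) = (q1 i, oo)
      · obtain ⟨i, c⟩ := c
        rw [c, hκ]
        refine (b1 i).2.2.2 (by_contra fun z => ?_)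
        obtain ⟨x, x1, x2⟩ := ((a2 i).2 z).2
        exact (ad.2.2 x ((Prod.mk.inj c).1 ▸ x1)).ne x2
      · rw [show κ _ = (p1.1.c.length, 0) from dif_neg c]; exact oo_pos)
    refine ⟨_, a1.tail ks, fun i => ⟨fun z => ?_, fun z => ⟨.inl ⟨_, ((a2 i).2 z).1, ?_⟩, ?_⟩⟩⟩
    · rw [(b1 i).1, ← hκ, (a2 i).1 z]
    · rw [(b1 i).1, ← hκ]
    · rw [(b1 i).1]
      exact ((a2 i).2 z).2.imp fun e y => ⟨List.mem_append_left _ y.1, y.2⟩

theorem Rz_fin (a : Adm p) : {x : KK × Q | Rz p x.1 x.2}.Finite :=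
  ((finite_univ (α := KK)).prod (Finite.pi' fun _ : Fin 4 => a.1.1.image Prod.fst)).subset
    fun _ z => ⟨trivial, fun i => ⟨_, Rz.mem z a i, rfl⟩⟩

theorem allG (a : Adm p) (Φ : KK × Q → Bool → Q → Prop)
    (h1 : ∀ x b q1 q2, Φ x b q1 → qle x.1 q1 q2 → Φ x b q2)
    (h2 : ∀ x q1, qle x.1 x.2 q1 → ∃ b q2, qle x.1 q1 q2 ∧ Φ x b q2) :
    ∃ p', ∃ b : KK × Q → Bool, kle p p' ∧ ∀ x, Rz p x.1 x.2 →
      ∀ q', Rz p' x.1 q' → (∀ i, x.2 i <+: q' i) → Φ x (b x) q' := by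
  classical
  have : ∀ S : Set (KK × Q), S.Finite → (∀ x ∈ S, Rz p x.1 x.2) → ∃ p', ∃ b : KK × Q → Bool, kle p p' ∧
      ∀ x ∈ S, ∃ q', qle x.1 x.2 q' ∧ Rz p' x.1 q' ∧ Φ x (b x) q' := fun S hS => by
    induction S, hS using Set.Finite.induction_on with
    | empty => exact fun _ => ⟨p, fun _ => true, .refl, fun _ z => z.elim⟩
    | @insert x S hx _ ih =>
      intro h
      obtain ⟨p1, b, a1, a2⟩ := ih fun y z => h y (.inr z)
      have ad := ale.adm (kle.ale a1) a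
      obtain ⟨q1, b1, b2⟩ := a1.up a (h x (.inl rfl))
      obtain ⟨c, q2, c1, c2⟩ := h2 x q1 b1
      obtain ⟨p2, d1, d2⟩ := b2.ext ad c1
      refine ⟨p2, Function.update b x c, a1.trans d1, ?_⟩
      rintro y (rfl | z)
      · exact ⟨q2, b1.trans c1, d2, by rwa [Function.update_self]⟩
      · obtain ⟨q3, e1, e2, e3⟩ := a2 y z
        obtain ⟨q4, f1, f2⟩ := d1.up ad e2
        exact ⟨q4, e1.trans f1, f2, by
          rw [Function.update_of_ne (fun w : y = x => hx (w ▸ z))]; exact h1 _ _ _ _ e3 f1⟩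
  obtain ⟨p', b, a1, a2⟩ := this _ (Rz_fin a) fun _ z => z
  refine ⟨p', b, a1, fun x z q' r k => ?_⟩
  obtain ⟨q1, b1, b2, b3⟩ := a2 x z
  rwa [a1.uniq' a z r b2 k b1.pre]
end

end Pool.Agent.H.MP_120e55_lc
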