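import Pool.Agent.H.MP_120e55_lc.C

set_option autoImplicit false

/-! The tasks of the construction. -/

namespace Pool.Agent.H.MP_120e55_lc

open Pool.Agent.Lib.helper21.PR Set Encodable Denumerable Nat.Partrec Nat.Partrec.Code Filter
open MP_64713a_lc (Pos nx sx rt dS)

def ht (r : ℕ → ℕ → Prop) (ζ : O) (a : ℕ) : Prop := ∀ ζ', ∀ _ : ζ' < ζ, ∃ b, r b a ∧ ht r ζ' b
termination_by ζ
def ch (x : ℕ → ℕ) (a b : ℕ) : Prop := x a = b ∧ b < a
def Fo (s : St) : Prop := ∀ i < s.length, xf s i < i → lt' (tg s i) (tg s (xf s i))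
def Inv (p : Cd × St) : Prop := Fo p.1.c ∧ (∀ l ∈ p.1.L, Fo l.1) ∧
  ∀ m < p.1.c.length, m ≤ xf p.1.c m → tg p.1.c m < oo → ∃ k ≤ m, tg p.1.c m ≤ tg p.2 k
def Kil (p : Cd × St) (ξ : O) : Prop := ∃ m, p.1.c.length = m + 1 ∧ m ≤ xf p.1.c m ∧ tg p.1.c m < oo ∧
  ξ < tg p.2 m ∧ ∀ l ∈ p.1.L, l.1 = p.2 ∨ (∃ e ∈ l.1, e.2 = oo) ∨ ∀ e ∈ l.1, e.2 < tg p.1.c m
def We (e : ℕ) : WW := fun z => ((ofNat Code e).eval (encode z)).Dom

theorem ht_tag {g : ℕ → El} (h : ∀ i j, ch (fun i => (g i).1) i j → lt' (g i).2 (g j).2) {ζ : O} {a : ℕ}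
    (k : ht (ch fun i => (g i).1) ζ a) (s : (g a).2 < oo) : ζ ≤ (g a).2 := by
  induction ζ using WellFoundedLT.induction generalizing a with
  | ind ζ ih =>
  by_contra z
  rw [ht] at k
  obtain ⟨b, b1, b2⟩ := k _ (not_le.1 z)
  have := (h _ _ b1).resolve_right s.ne
  exact (ih _ (not_le.1 z) b2 (this.trans s)).not_gt this

theorem ht_exact {g : ℕ → El} (h : ∀ i ζ, (g i).2 < oo → ζ < (g i).2 → ∃ m, ch (fun i => (g i).1) m i ∧ (g m).2 = ζ)
    {a : ℕ} (s : (g a).2 < oo) : ht (ch fun i => (g i).1) (g a).2 a := by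
  generalize e : (g a).2 = ζ
  induction ζ using WellFoundedLT.induction generalizing a with
  | ind ζ ih =>
  rw [ht]
  intro ζ' z
  obtain ⟨m, m1, m2⟩ := h a ζ' s (e ▸ z)
  exact ⟨m, m1, ih ζ' z (m2 ▸ (e ▸ z : ζ' < (g a).2).trans s) m2⟩

theorem ht_emb {r r' : ℕ → ℕ → Prop} {g : ℕ → ℕ} (h : ∀ i j q, r i j → g j = q + 1 → ∃ p, g i = p + 1 ∧ r' p q)
    {ζ : O} {a q : ℕ} (k : ht r ζ a) (e : g a = q + 1) : ht r' ζ q := by
  induction ζ using WellFoundedLT.induction generalizing a q with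
  | ind ζ ih =>
  rw [ht] at k ⊢
  intro ζ' z
  obtain ⟨b, b1, b2⟩ := k ζ' z
  obtain ⟨p, p1, p2⟩ := h _ _ _ b1 e
  exact ⟨p, p2, ih ζ' z b2 p1⟩

theorem ht_path {r : ℕ → ℕ → Prop} {g : ℕ → ℕ} (h : ∀ i, r (g (i + 1)) (g i)) (ζ : O) (i : ℕ) : ht r ζ (g i) := by
  induction ζ using WellFoundedLT.induction generalizing i with
  | ind ζ ih =>
  rw [ht]
  exact fun ζ' z => ⟨_, h i, ih ζ' z _⟩

theorem gD_lt {s : St} {e : El} {i : ℕ} (h : i < s.length) : (s ++ [e]).getD i (0, 0) = s.getD i (0, 0) :=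
  getD_pre (List.prefix_append _ _) h
theorem gD_eq {s : St} {e : El} {i : ℕ} (h : i = s.length) : (s ++ [e]).getD i (0, 0) = e := by
  simp [h, List.getD_eq_getElem?_getD]
theorem gD_mem {s : St} {i : ℕ} (h : i < s.length) : s.getD i (0, 0) ∈ s := by
  simp [List.getD_eq_getElem?_getD, List.getElem?_eq_getElem h]
theorem mem_gD {s : St} {e : El} (h : e ∈ s) : ∃ i < s.length, s.getD i (0, 0) = e := by
  obtain ⟨i, k, rfl⟩ := List.getElem_of_mem h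
  exact ⟨i, k, by simp [List.getD_eq_getElem?_getD, List.getElem?_eq_getElem k]⟩

theorem Fo.snoc {s : St} {e : El} (h : Fo s) (k : ok s e) : Fo (s ++ [e]) := fun i a b => by
  unfold xf tg at *
  rcases Nat.lt_succ_iff_lt_or_eq.1 (by simpa using a : i < s.length + 1) with c | c
  · rw [gD_lt c] at b ⊢
    rw [gD_lt (b.trans c)]
    exact h i c b
  · rw [gD_eq c] at b ⊢
    rw [gD_lt (c ▸ b)]
    exact k (c ▸ b)

section
variable {p p' : Cd × St}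

theorem astep.inv (h : astep p p') (a : Adm p) (k : Inv p) : Inv p' := by
  obtain ⟨⟨-, ec', k1, k2, k3, -⟩, e, ec, b1, -, -, b2, b3⟩ := h
  have l := (a.1.2.2 _ a.2.1).1
  refine ⟨k1 ▸ k.1.snoc k2, fun l z => ?_, fun m c1 c2 c3 => ?_⟩
  · obtain ⟨l', y1, e, y2, y3⟩ := k3 l z
    exact y2 ▸ (k.2.1 _ y1).snoc y3
  · rw [b2] at c1 c2 c3 ⊢
    unfold xf tg at *
    rcases Nat.lt_succ_iff_lt_or_eq.1 (by simpa using c1 : m < p.1.c.length + 1) with c | c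
    · rw [gD_lt c] at c2 c3 ⊢
      obtain ⟨i, i1, i2⟩ := k.2.2 m c c2 c3
      exact ⟨i, i1, by rw [b1, gD_lt (by simp only at l; omega)]; exact i2⟩
    · rw [gD_eq c] at c2 c3 ⊢
      obtain ⟨x, x1, x2⟩ := b3 (c ▸ c2) c3
      obtain ⟨i, i1, rfl⟩ := mem_gD x1
      exact ⟨i, by simp only [b1, List.length_append, List.length_singleton] at i1 l; omega, x2⟩

theorem ale.inv (h : ale p p') (a : Adm p) (k : Inv p) : Inv p' := by
  induction h with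
  | refl => exact k
  | tail h1 h ih => exact h.inv (ale.adm h1 a) ih

theorem ale.pre (h : ale p p') : p.2 <+: p'.2 ∧ p.1.c <+: p'.1.c := by
  induction h with
  | refl => exact ⟨List.prefix_rfl, List.prefix_rfl⟩
  | tail _ h ih =>
    obtain ⟨-, e, ec, b1, -, -, b2, -⟩ := h
    exact ⟨ih.1.trans (b1 ▸ List.prefix_append _ _), ih.2.trans (b2 ▸ List.prefix_append _ _)⟩

theorem ale.qle (h : ale p p') (a : Adm p) {K : KK} {q q' : Q} (h1 : ∀ i, ∃ x, (q i, x) ∈ p.1.L)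
    (h2 : ∀ i, ∃ x, (q' i, x) ∈ p'.1.L) (h3 : ∀ i, q i <+: q' i) (h4 : ∀ i, K i → q' i = p'.2)
    (h5 : ∀ i j, q i = q j → q' i = q' j) : qle K q q' := by
  have l : ∀ i, (q i).length = p.1.c.length := fun i => (h1 i).elim fun _ z => (a.1.2.2 _ z).1
  induction h generalizing q' with
  | refl =>
    have : q = q' := funext fun i => (h3 i).eq_of_length ((l i).trans ((h2 i).elim fun _ z => (a.1.2.2 _ z).1.symm))
    exact this ▸ .refl
  | @tail p1 p2 h k ih =>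
    have ad := ale.adm h a
    obtain ⟨⟨v, -, -, -, k3, -⟩, e0, -, b1, b2, -⟩ := k
    choose x hx using h2
    choose s s1 e s2 s3 using fun i => k3 _ (hx i)
    have l' : ∀ i, (q i).length ≤ (s i).1.length := fun i => by
      rw [l, (ad.1.2.2 _ (s1 i)).1]; exact (ale.pre h).2.length_le
    have pr : ∀ i, q i <+: (s i).1 := fun i => (pre_snoc (l' i)).1 ((show q' i = _ from s2 i) ▸ h3 i)
    have inj : ∀ i j, q i = q j → (s i).1 = (s j).1 ∧ e i = e j := fun i j z =>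
      (List.append_inj' ((s2 i).symm.trans ((h5 i j z).trans (s2 j))) rfl).imp_right List.singleton_inj.1
    have kk : ∀ i, K i → (s i).1 = p1.2 ∧ e i = e0 := fun i z =>
      (List.append_inj' ((s2 i).symm.trans ((h4 i z).trans b1)) rfl).imp_right List.singleton_inj.1
    refine (ih (q' := fun i => (s i).1) (fun i => ⟨_, s1 i⟩) pr (fun i z => (kk i z).1)
      fun i j z => (inj i j z).1).tail ⟨e, fun i => ⟨s2 i, s3 i, (v.2.1.2 _ (hx i)).2 _ (by rw [s2 i]; simp),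
        fun z => (kk i z).2 ▸ b2⟩, fun i j z => (inj i j ?_).2⟩
    exact (List.prefix_of_prefix_length_le (pr i) ((show (s i).1 = (s j).1 from z) ▸ pr j) ((l i).trans (l j).symm).le).eq_of_length
      ((l i).trans (l j).symm)

theorem le.res {t t' : Cd} (h : le t t') (v : Val t) {s : St} {x : O} (k : (s, x) ∈ t'.L) :
    ∃ x', (s.take t.c.length, x') ∈ t.L := by
  have mono : ∀ {t t' : Cd}, le t t' → t.c.length ≤ t'.c.length := fun h => by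
    induction h with
    | refl => exact le_rfl
    | tail _ k ih => rw [k.len]; omega
  induction h generalizing s x with
  | refl => exact ⟨x, by rwa [← (v.2.2 _ k).1, List.take_length]⟩
  | tail h1 h ih =>
    obtain ⟨-, -, -, -, k3, -⟩ := h
    obtain ⟨l, a1, e, a2, -⟩ := k3 _ k
    rw [show s = l.1 ++ [e] from a2, List.take_append_of_le_length (((le.val h1 v).2.2 _ a1).1 ▸ mono h1)]
    exact ih a1

theorem kill (a : Adm p) {ξ : O} (h : ξ < oo) : ∃ p', astep p p' ∧ Kil p' ξ := by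
  classical
  obtain ⟨l0, a1, a2⟩ := a.1.bel
  let ρ := max l0 (ξ + 1)
  have hρ : ρ < oo := max_lt a1 (oo_succ h)
  let κ : St × O → El := fun l => (p.1.c.length, if l = (p.2, oo) then ρ else if l.2 = oo then oo else 0)
  have e : κ (p.2, oo) = (p.1.c.length, ρ) := by simp [κ]
  have ks := kmk a (ec := (p.1.c.length, ρ)) (κ := κ) hρ.le (fun z => (lt_irrefl _ z).elim) (fun l z => by
    refine ⟨fun y => by rw [(a.1.2.2 l z).1] at y; exact (lt_irrefl _ y).elim, ?_, ?_, fun _ y => ⟨κ l, by simp, ?_⟩⟩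
    · simp only [κ]; split_ifs; exacts [hρ.le, le_rfl, zero_le]
    · simp only [κ]
      split_ifs with c c'
      exacts [.inr (by rw [c]), .inr c', .inl (pos_iff_ne_zero.2 (a.1.2.2 l z).2.1)]
    · simp only [κ]
      split_ifs with c c'
      exacts [le_rfl, hρ.le, absurd y (((a2.2 l z).1.resolve_right c').le.trans (le_max_left _ _)).not_gt])
    (e ▸ hρ)
  have g : (p.1.c ++ [(p.1.c.length, ρ)]).getD p.1.c.length (0, 0) = (p.1.c.length, ρ) := gD_eq rfl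
  refine ⟨_, ks.1, p.1.c.length, by simp [mk], (congrArg Prod.fst g).ge, (congrArg Prod.snd g).trans_lt hρ, ?_, ?_⟩
  · show ξ < ((p.2 ++ [κ _]).getD _ _).2
    rw [gD_eq (a.1.2.2 _ a.2.1).1.symm, e]
    exact (Order.add_one_le_iff.1 le_rfl).trans_le (le_max_right _ _)
  · rintro _ (⟨l, z, rfl⟩ | z)
    · by_cases c : l = (p.2, oo)
      · exact .inl (by rw [c])
      by_cases c' : l.2 = oo
      · exact .inr (.inl ⟨κ l, by simp, by simp [κ, c, c']⟩)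
      refine .inr (.inr fun x y => lt_of_lt_of_eq ?_ (congrArg Prod.snd g).symm)
      have lt : l.2 ≤ ρ := ((a2.2 l z).1.resolve_right c').le.trans (le_max_left _ _)
      rcases List.mem_append.1 y with y | y
      · exact (((a.1.2.2 l z).2.2 x y).resolve_right c').trans_le lt
      · rw [List.mem_singleton.1 y]
        simp only [κ, if_neg c, if_neg c']
        exact (pos_iff_ne_zero.2 (a.1.2.2 l z).2.1).trans_le lt
    · exact z.elim

theorem addc (a : Adm p) {i : ℕ} {ζ : O} (h : i < p.1.c.length) (h1 : ζ ≤ oo) (h2 : lt' ζ (tg p.1.c i)) :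
    ∃ p', astep p p' ∧ ∃ m, i < m ∧ m < p'.1.c.length ∧ p'.1.c.getD m (0, 0) = (i, ζ) :=
  ⟨_, (kmk a (ec := (i, ζ)) (κ := fun _ => (p.1.c.length, 0)) h1 (fun _ => h2) (fun l z =>
    ⟨fun y => by rw [(a.1.2.2 l z).1] at y; exact (lt_irrefl _ y).elim, zero_le,
      .inl (pos_iff_ne_zero.2 (a.1.2.2 l z).2.1), fun y => (h.not_ge y).elim⟩) oo_pos).1,
    _, h, by simp [mk], gD_eq rfl⟩

theorem addd (a : Adm p) {i : ℕ} {ζ : O} (h : i < p.2.length) (h2 : ζ < tg p.2 i) :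
    ∃ p', astep p p' ∧ ∃ m, i < m ∧ m < p'.2.length ∧ p'.2.getD m (0, 0) = (i, ζ) := by
  classical
  have h1 : ζ < oo := h2.trans (a.2.2 _ (gD_mem h))
  let κ : St × O → El := fun l => if l = (p.2, oo) then (i, ζ) else (p.1.c.length, 0)
  have e : κ (p.2, oo) = (i, ζ) := if_pos rfl
  refine ⟨_, (kmk a (ec := (p.1.c.length, oo)) (κ := κ) le_rfl (fun z => (lt_irrefl _ z).elim) (fun l z => ?_)
    (e ▸ h1)).1, _, h, by simp, (gD_eq rfl).trans e⟩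
  have rs : resp p.1.c.length (p.1.c.length, oo) (l.1 ++ [κ l]) l.2 := fun _ y => (y.not_ge (a.1.2.1.2 l z).1).elim
  by_cases c : l = (p.2, oo)
  · subst c
    rw [e] at rs ⊢
    exact ⟨fun _ => .inl h2, h1.le, .inr rfl, rs⟩
  · rw [show κ l = (p.1.c.length, 0) from if_neg c] at rs ⊢
    exact ⟨fun y => by rw [(a.1.2.2 l z).1] at y; exact (lt_irrefl _ y).elim, zero_le,
      .inl (pos_iff_ne_zero.2 (a.1.2.2 l z).2.1), rs⟩
end

theorem exEn : ∃ en : O → ℕ → O, en oo 0 = oo ∧ ∀ ξ < oo, ∀ ζ < ξ, ∃ j, en ξ j = ζ := by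
  classical
  have : ∀ ξ : O, ∃ f : ℕ → O, ξ < oo → ∀ ζ < ξ, ∃ j, f j = ζ := fun ξ => by
    by_cases c : ξ < oo
    · obtain ⟨f, hf⟩ := ((cnt_Iio c).insert 0).exists_eq_range (insert_nonempty _ _)
      exact ⟨f, fun _ ζ z => show ζ ∈ range f from hf ▸ .inr z⟩
    · exact ⟨fun _ => 0, fun z => (c z).elim⟩
  choose f hf using this
  exact ⟨fun ξ j => if ξ = oo then oo else f ξ j, if_pos rfl, fun ξ h ζ z =>
    (hf ξ h ζ z).imp fun j y => (if_neg h.ne).trans y⟩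

def Tk (en : O → ℕ → O) (k : ℕ) (j : Fin 6 × ℕ × ℕ × ℕ × Pos) (p p' : Cd × St) : Prop :=
  (j.1 = 0 → ∃ ξ, Kil p' ξ ∧ p.1.c.length < p'.1.c.length ∧
    (Bad (We j.2.1) p'.1 j.2.2.1 ∨ (ξ < oo ∧ F (We j.2.1) ξ p'.1 j.2.2.1))) ∧
  (j.1 = 1 → Bad (We j.2.1) p.1 j.2.2.1 → ∃ a', dec (We j.2.1) p'.1 a' j.2.2.1 ∧ Bad (We j.2.1) p'.1 a') ∧
  (j.1 = 2 → ∀ ξ < oo, F (We j.2.1) ξ p.1 j.2.2.1 → dec (We j.2.1) p.1 j.2.2.2.1 j.2.2.1 →
    ∃ ξ' < ξ, F (We j.2.1) ξ' p'.1 j.2.2.2.1) ∧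
  (j.1 = 3 → j.2.1 < p.1.c.length → en (tg p.1.c j.2.1) j.2.2.1 ≤ oo →
    lt' (en (tg p.1.c j.2.1) j.2.2.1) (tg p.1.c j.2.1) → ∃ m, j.2.1 < m ∧ m < p'.1.c.length ∧
      p'.1.c.getD m (0, 0) = (j.2.1, en (tg p.1.c j.2.1) j.2.2.1)) ∧
  (j.1 = 4 → j.2.1 < p.2.length → en (tg p.2 j.2.1) j.2.2.1 < tg p.2 j.2.1 → ∃ m, j.2.1 < m ∧ m < p'.2.length ∧
      p'.2.getD m (0, 0) = (j.2.1, en (tg p.2 j.2.1) j.2.2.1)) ∧
  ∃ ν : KK × Q → ℕ, ∃ b : KK × Q → Bool, j.1 = 5 → InjOn ν {x | Rz p x.1 x.2} ∧ ∀ x, Rz p x.1 x.2 →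
    ∀ q', Rz p' x.1 q' → (∀ i, x.2 i <+: q' i) → Act x.1 q' j.2.1 j.2.2.1 (Nat.pair k (ν x)) (b x) ∧
      (Z x.1 x.2 j.2.2.2.2 → DD (Z x.1) (sx j.2.2.2.2 j.2.2.2.1) q')

theorem exTk (en : O → ℕ → O) (k : ℕ) (j : Fin 6 × ℕ × ℕ × ℕ × Pos) {p : Cd × St} (a : Adm p) :
    ∃ p', ale p p' ∧ Tk en k j p p' := by
  obtain ⟨j, e, a1, a2, pos⟩ := j
  unfold Tk
  fin_cases j <;> simp only [Fin.zero_eta, Fin.mk_one, Fin.reduceFinMk, Fin.isValue, Fin.reduceEq, forall_const,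
    IsEmpty.forall_iff, true_and, and_true, exists_const]
  · obtain ⟨q, ξ, b1, b2, b3⟩ : ∃ q ξ, ale p q ∧ ξ < oo ∧ (Bad (We e) q.1 a1 ∨ F (We e) ξ q.1 a1) := by
      by_cases c : Bad (We e) p.1 a1
      · exact ⟨p, 0, .refl, oo_pos, .inl c⟩
      · obtain ⟨t', ξ, c1, c2, c3⟩ := not_not.1 c
        obtain ⟨q, d1, d2⟩ := AD (t := p.1) (d := p.2) a c1 c2 c3
        exact ⟨q, ξ, d1, c1, .inr d2⟩
    obtain ⟨p', c1, c2⟩ := kill (ale.adm b1 a) b2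
    exact ⟨p', b1.tail c1, ξ, c2, by rw [c1.1.len]; exact Nat.lt_succ_of_le (ale.pre b1).2.length_le,
      b3.imp (·.mono (.single c1.1)) fun z => ⟨b2, z.mono (.single c1.1)⟩⟩
  · by_cases c : Bad (We e) p.1 a1
    · obtain ⟨q, a', b1, b2⟩ := BL (t := p.1) (d := p.2) a c
      exact ⟨q, b1, fun _ => ⟨a', b2⟩⟩
    · exact ⟨p, .refl, fun z => (c z).elim⟩
  · by_cases c : (∃ ξ, ξ < oo ∧ F (We e) ξ p.1 a1) ∧ dec (We e) p.1 a2 a1
    · obtain ⟨ξ, ⟨b1, b2⟩, b3⟩ := wellFounded_lt.has_min {ξ | ξ < oo ∧ F (We e) ξ p.1 a1} c.1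
      rw [F] at b2
      obtain ⟨t', ξ', c1, c2, c3⟩ := b2 _ _ .refl c.2
      obtain ⟨q, d1, d2⟩ := AD (t := p.1) (d := p.2) a (c1.trans b1) c2 c3
      exact ⟨q, d1, fun ξ x y _ => ⟨ξ', c1.trans_le (not_lt.1 (b3 ξ ⟨x, y⟩)), d2⟩⟩
    · exact ⟨p, .refl, fun ξ x y z => (c ⟨⟨ξ, x, y⟩, z⟩).elim⟩
  · by_cases c : e < p.1.c.length ∧ en (tg p.1.c e) a1 ≤ oo ∧ lt' (en (tg p.1.c e) a1) (tg p.1.c e)
    · obtain ⟨q, b1, b2⟩ := addc a c.1 c.2.1 c.2.2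
      exact ⟨q, .single b1, fun _ _ _ => b2⟩
    · exact ⟨p, .refl, fun x y z => (c ⟨x, y, z⟩).elim⟩
  · by_cases c : e < p.2.length ∧ en (tg p.2 e) a1 < tg p.2 e
    · obtain ⟨q, b1, b2⟩ := addd a c.1 c.2
      exact ⟨q, .single b1, fun _ _ => b2⟩
    · exact ⟨p, .refl, fun x y => (c ⟨x, y⟩).elim⟩
  · obtain ⟨ν, hν⟩ := Set.countable_iff_exists_injOn.1 (Rz_fin a).countable
    obtain ⟨p', b, b1, b2⟩ := allG a (fun x b q => Act x.1 q e a1 (Nat.pair k (ν x)) b ∧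
      (Z x.1 x.2 pos → DD (Z x.1) (sx pos a2) q)) (fun x b q1 q2 z y => ⟨z.1.mono y, fun w => (z.2 w).mono y⟩)
      fun x q1 z => by
        obtain ⟨b, q2, c1, c2⟩ := exAct x.1 q1 e a1 (Nat.pair k (ν x))
        by_cases c : Z x.1 x.2 pos
        · obtain ⟨q3, d1, d2⟩ := (Z_post _ _ _ (c.mono (z.trans c1))).2.2 a2
          exact ⟨b, q3, c1.trans d1, c2.mono d1, fun _ => d2⟩
        · exact ⟨b, q2, c1, c2, fun y => (c y).elim⟩
    exact ⟨p', b1.ale, ν, b, hν, b2⟩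

theorem exSeq (en : O → ℕ → O) : ∃ p : ℕ → Cd × St, ∃ e : ℕ → Fin 6 × ℕ × ℕ × ℕ × Pos,
    (∀ k, Adm (p k) ∧ Inv (p k)) ∧ (∀ k k', k ≤ k' → ale (p k) (p k')) ∧ (∀ k, Tk en k (e k) (p k) (p (k + 1))) ∧
      ∀ j k, ∃ k', k ≤ k' ∧ e k' = j := by
  have : ∀ k j p, ∃ p', Adm p → ale p p' ∧ Tk en k j p p' := fun k j p => by
    by_cases c : Adm p
    · exact (exTk en k j c).imp fun _ z _ => z
    · exact ⟨p, fun z => (c z).elim⟩
  choose G hG using this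
  obtain ⟨e, he⟩ := exists_surjective_nat (Fin 6 × ℕ × ℕ × ℕ × Pos)
  let p : ℕ → Cd × St := fun k => Nat.rec (⟨[], {([], oo)}⟩, []) (fun k x => G k (e k.unpair.1) x) k
  have v : ∀ k, Adm (p k) ∧ Inv (p k) := fun k => by
    induction k with
    | zero =>
      refine ⟨⟨⟨finite_singleton _, ⟨fun _ z => absurd z List.not_mem_nil, ?_⟩, ?_⟩, rfl,
        fun _ z => absurd z List.not_mem_nil⟩, fun _ z => absurd z (Nat.not_lt_zero _), ?_,
          fun _ z => absurd z (Nat.not_lt_zero _)⟩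
      · rintro _ rfl; exact ⟨le_rfl, fun _ z => absurd z List.not_mem_nil⟩
      · rintro _ rfl; exact ⟨rfl, oo_pos.ne', fun _ z => absurd z List.not_mem_nil⟩
      · rintro _ rfl; exact fun _ z => absurd z (Nat.not_lt_zero _)
    | succ k ih => exact ⟨ale.adm (hG _ _ _ ih.1).1 ih.1, ale.inv (hG _ _ _ ih.1).1 ih.1 ih.2⟩
  refine ⟨p, fun k => e k.unpair.1, v, fun k k' h => ?_, fun k => (hG _ _ _ (v k).1).2, fun j k => ?_⟩
  · induction h with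
    | refl => exact .refl
    | step _ ih => exact ih.trans (hG _ _ _ (v _).1).1
  · obtain ⟨a, rfl⟩ := he j
    exact ⟨Nat.pair a k, Nat.right_le_pair _ _, by simp only [Nat.unpair_pair]⟩

end Pool.Agent.H.MP_120e55_lc
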