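import Pool.Agent.H.MP_120e55_lc.D

set_option autoImplicit false

/-! The generic object and its properties. -/

namespace Pool.Agent.H.MP_120e55_lc

open Pool.Agent.Lib.helper21.PR Set Encodable Denumerable Nat.Partrec Nat.Partrec.Code Filter
open MP_64713a_lc (Pos nx sx rt dS limS)

def Mem (P : List ℕ → Prop) (cv x : ℕ → ℕ) : Prop := (∀ n, P ((List.range n).map x)) ∧ ∀ m, m ≤ cv m →
  (∃ g : ℕ → ℕ, g 0 = m ∧ ∀ i, ch cv (g (i + 1)) (g i)) ∨
    ∃ g : ℕ → ℕ, g m ≠ 0 ∧ g m ≤ m + 1 ∧ ∀ i j q, ch cv i j → g j = q + 1 → ∃ p, g i = p + 1 ∧ ch x p q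
def WFb (c n : ℕ) (z : ℕ → Bool) : Prop :=
  ∀ f : ℕ → ℕ, ∃ m, ((ofNat Code c).eval (encode (n, (List.range m).map z, (List.range m).map f))).Dom
def Lim (u : ℕ → St) (g : ℕ → El) : Prop := ∀ k i, i < (u k).length → (u k).getD i (0, 0) = g i

theorem limSt {u : ℕ → St} (hu : ∀ k k', k ≤ k' → u k <+: u k') (hl : ∀ n, ∃ k, n ≤ (u k).length) :
    ∃ g, Lim u g := by
  choose κ hκ using hl
  exact ⟨fun i => (u (κ (i + 1))).getD i (0, 0), fun k i h =>
    (getD_pre (hu _ _ (le_max_left k (κ (i + 1)))) h).symm.trans (getD_pre (hu _ _ (le_max_right _ _)) (hκ _))⟩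

theorem Lim.map {u : ℕ → St} {g : ℕ → El} (h : Lim u g) (k : ℕ) :
    (u k).map Prod.fst = (List.range (u k).length).map fun i => (g i).1 :=
  List.ext_getElem (by simp) fun i h1 _ => by
    have hi : i < (u k).length := by simpa using h1
    simp [← h k i hi, List.getD_eq_getElem?_getD, List.getElem?_eq_getElem hi]

theorem Lim.fo {u : ℕ → St} {g : ℕ → El} (h : Lim u g) (hl : ∀ n, ∃ k, n ≤ (u k).length) (f : ∀ k, Fo (u k))
    (i j : ℕ) (c : ch (fun i => (g i).1) i j) : lt' (g i).2 (g j).2 := by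
  obtain ⟨k, hk⟩ := hl (i + 1)
  have e : xf (u k) i = j := (congrArg Prod.fst (h k i hk)).trans c.1
  have := f k i hk (e ▸ c.2)
  rwa [e, tg, tg, h k i hk, h k j (c.2.trans hk)] at this

theorem pre_range {l : List ℕ} {x : ℕ → ℕ} {n : ℕ} (h : l.length ≤ n) :
    l <+: (List.range n).map x ↔ l = (List.range l.length).map x := by
  rw [List.prefix_iff_eq_take, ← List.map_take, List.take_range, min_eq_left h]

theorem le.yb {t t' : Cd} (h : le t t') (v : Val t) {j : ℕ} (k : j ≤ t.c.length) :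
    (yb t' j ↔ yb t j) ∧ t.c.length ≤ t'.c.length := by
  induction h with
  | refl => exact ⟨Iff.rfl, le_rfl⟩
  | tail h1 h ih => exact ⟨(h.yb (le.val h1 v) (k.trans ih.2)).trans ih.1, by rw [h.len]; omega⟩

theorem le.up {t t' : Cd} (h : le t t') {l : St × O} (k : l ∈ t.L) : ∃ l' ∈ t'.L, l.1 <+: l'.1 := by
  induction h with
  | refl => exact ⟨l, k, List.prefix_rfl⟩
  | tail _ h ih =>
    obtain ⟨l', a1, a2⟩ := ih
    obtain ⟨-, ec, -, -, -, k4⟩ := h
    obtain ⟨e, b1, -⟩ := k4 l' a1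
    exact ⟨_, b1, a2.trans (List.prefix_append _ _)⟩

theorem thread {t : ℕ → Cd} (v : ∀ k, Val (t k)) (mo : ∀ k k', k ≤ k' → le (t k) (t k')) {x : ℕ → ℕ}
    (h : ∀ n, ∃ k, ∃ l ∈ (t k).L, (List.range n).map x <+: l.1.map Prod.fst) :
    ∃ θ : ℕ → St, (∀ k, (∃ a, (θ k, a) ∈ (t k).L) ∧ (θ k).map Prod.fst = (List.range (t k).c.length).map x) ∧
      ∀ k k', k ≤ k' → θ k <+: θ k' := by
  let S : ℕ → Set St := fun k => {s | (∃ a, (s, a) ∈ (t k).L) ∧ s.map Prod.fst = (List.range (t k).c.length).map x}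
  have res : ∀ k k', k ≤ k' → ∀ l ∈ (t k').L, (List.range (t k).c.length).map x <+: l.1.map Prod.fst →
      l.1.take (t k).c.length ∈ S k := fun k k' a l b c => ⟨le.res (mo _ _ a) (v k) b, by
    have := List.prefix_iff_eq_take.1 c
    rw [List.map_take, this]; simp⟩
  have ne : ∀ k, (S k).Nonempty := fun k => by
    obtain ⟨k', l, a1, a2⟩ := h (t k).c.length
    obtain ⟨l', b1, b2⟩ := le.up (mo _ _ (le_max_right k k')) a1
    exact ⟨_, res _ _ (le_max_left _ _) l' b1 (a2.trans (b2.map _))⟩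
  choose σ hσ using ne
  have ex : ∀ k, ∃ s ∈ S k, ∀ᶠ k' in (hyperfilter ℕ : Filter ℕ), (σ k').take (t k).c.length = s := fun k => by
    have fin : (S k).Finite := ((v k).1.image Prod.fst).subset fun s ⟨⟨a, z⟩, _⟩ => ⟨_, z, rfl⟩
    refine (Ultrafilter.eventually_exists_mem_iff fin).1 ?_
    filter_upwards [(eventually_ge_atTop k).filter_mono Nat.hyperfilter_le_atTop] with k' z
    obtain ⟨⟨a, a1⟩, a2⟩ := hσ k'
    refine ⟨_, res k k' z _ a1 ?_, rfl⟩
    rw [a2, pre_range (by simpa using (le.yb (mo _ _ z) (v k) (Nat.zero_le _)).2)]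
    simp
  choose θ h1 h2 using ex
  refine ⟨θ, h1, fun k k' z => ?_⟩
  obtain ⟨n, a, b⟩ := ((h2 k).and (h2 k')).exists
  rw [← a, ← b]
  exact List.take_prefix_take_left (le.yb (mo _ _ z) (v k) (Nat.zero_le _)).2

theorem main : ∃ (y : ℕ → Bool) (P : List ℕ → Prop) (cv x₀ : ℕ → ℕ) (γ : Set ℕ),
    (∀ j, y j = true ↔ ((dB j).1 = true ∧ P (dB j).2) ∨
      ((dB j).1 = false ∧ (dB j).2 = (List.range (dB j).2.length).map cv)) ∧
    Mem P cv x₀ ∧ WellFounded (ch x₀) ∧
    (∀ e (r : ℕ → ℕ → Prop), (∀ a' a, r a' a ↔ ∃ m, We e (a', a, (List.range m).map y)) → WellFounded r →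
      ∀ a, ∃ ξ, (∀ ζ, ht r ζ a → ζ ≤ ξ) ∧ ∃ i ρ, ξ < ρ ∧ ht (ch x₀) ρ i) ∧
    ∀ x : Fin 4 → ℕ → ℕ, (∀ i, Mem P cv (x i)) → ∀ c c', ¬ ∀ n,
      (n ∈ γ ↔ WFb c n (join fun i => hat (x i))) ∧ (n ∉ γ ↔ WFb c' n (join fun i => hat (x i))) := by
  obtain ⟨en, en1, en2⟩ := exEn
  obtain ⟨p, e, v, mo, tk, often⟩ := exSeq en
  have vv : ∀ k, Val (p k).1 := fun k => (v k).1.1
  have ml : ∀ k k', k ≤ k' → le (p k).1 (p k').1 := fun k k' h => ale.le (mo k k' h)
  have lm : ∀ k k', k ≤ k' → (p k).1.c.length ≤ (p k').1.c.length := fun k k' h => (ale.pre (mo k k' h)).2.length_le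
  have ld : ∀ k, (p k).2.length = (p k).1.c.length := fun k => ((vv k).2.2 _ (v k).1.2.1).1
  have t0 : ∀ a b k, ∃ k', k ≤ k' ∧ ∃ ξ, Kil (p (k' + 1)) ξ ∧ (p k').1.c.length < (p (k' + 1)).1.c.length ∧
      (Bad (We a) (p (k' + 1)).1 b ∨ (ξ < oo ∧ F (We a) ξ (p (k' + 1)).1 b)) := fun a b k => by
    obtain ⟨k', h1, h2⟩ := often (0, a, b, 0, rt 0 0 0) k
    have := (tk k').1
    rw [h2] at this
    exact ⟨k', h1, this rfl⟩
  have unb : ∀ n, ∃ k, n ≤ (p k).1.c.length := fun n => by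
    induction n with
    | zero => exact ⟨0, Nat.zero_le _⟩
    | succ n ih =>
      obtain ⟨k, ih⟩ := ih
      obtain ⟨k', h1, -, -, h2, -⟩ := t0 0 0 k
      exact ⟨k' + 1, Nat.succ_le_of_lt ((ih.trans (lm _ _ h1)).trans_lt h2)⟩
  have unb' : ∀ n k, ∃ k', k ≤ k' ∧ n ≤ (p k').1.c.length := fun n k =>
    let ⟨k', h⟩ := unb n; ⟨max k k', le_max_left _ _, h.trans (lm _ _ (le_max_right _ _))⟩
  have und : ∀ n, ∃ k, n ≤ (p k).2.length := fun n => (unb n).imp fun k h => (ld k).symm ▸ h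
  obtain ⟨gc, hc⟩ := limSt (u := fun k => (p k).1.c) (fun k k' h => (ale.pre (mo k k' h)).2) unb
  obtain ⟨gd, hd⟩ := limSt (u := fun k => (p k).2) (fun k k' h => (ale.pre (mo k k' h)).1) und
  let cv : ℕ → ℕ := fun i => (gc i).1
  let x₀ : ℕ → ℕ := fun i => (gd i).1
  let P : List ℕ → Prop := fun l => ∃ k, ∃ l' ∈ (p k).1.L, l <+: l'.1.map Prod.fst
  let y : ℕ → Bool := fun j => cd (((dB j).1 = true ∧ P (dB j).2) ∨
    ((dB j).1 = false ∧ (dB j).2 = (List.range (dB j).2.length).map cv))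
  have hy : ∀ k, yp (p k).1 = (List.range (p k).1.c.length).map y := fun k => List.map_congr_left fun j z => by
    have z := (List.mem_range.1 z).le
    refine congrArg cd (propext (or_congr (and_congr_right fun b => ⟨fun a => ⟨k, a⟩, fun ⟨k', l, a1, a2⟩ => ?_⟩)
      (and_congr_right fun _ => by rw [hc.map k, pre_range ((dB_len j).trans z)])))
    obtain ⟨l', b1, b2⟩ := le.up (ml _ _ (le_max_right k k')) a1
    exact (((le.yb (ml _ _ (le_max_left k k')) (vv k) z).1.1 (.inl ⟨b, l', b1, a2.trans (b2.map _)⟩)).resolve_right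
      fun w => by rw [b] at w; cases w.1).2
  have hdec : ∀ W k a' a, dec W (p k).1 a' a ↔ ∃ m ≤ (p k).1.c.length, W (a', a, (List.range m).map y) :=
    fun W k a' a => exists_congr fun m => and_congr_right fun h => by
      rw [hy, ← List.map_take, List.take_range, min_eq_left h]
  have fc := hc.fo unb fun k => (v k).2.1
  have fd := hd.fo und fun k => (v k).2.2.1 _ (v k).1.2.1
  have sd : ∀ i, (gd i).2 < oo := fun i => by
    obtain ⟨k, h⟩ := und (i + 1)
    exact hd k i h ▸ (v k).1.2.2 _ (gD_mem h)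
  have sc : ∀ i, (gc i).2 ≤ oo := fun i => by
    obtain ⟨k, h⟩ := unb (i + 1)
    exact hc k i h ▸ (vv k).2.1.1 _ (gD_mem h)
  have xc : ∀ i j, en (gc i).2 j ≤ oo → lt' (en (gc i).2 j) (gc i).2 → ∃ m, ch cv m i ∧ (gc m).2 = en (gc i).2 j :=
    fun i j a b => by
      obtain ⟨k, h⟩ := unb (i + 1)
      obtain ⟨k', h1, h2⟩ := often (3, i, j, 0, rt 0 0 0) k
      have h3 : i < (p k').1.c.length := h.trans (lm _ _ h1)
      have := (tk k').2.2.2.1
      rw [h2, show tg (p k').1.c i = (gc i).2 from congrArg Prod.snd (hc k' i h3)] at this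
      obtain ⟨m, m1, m2, m3⟩ := this rfl h3 a b
      rw [hc _ _ m2] at m3
      exact ⟨m, ⟨congrArg Prod.fst m3, m1⟩, congrArg Prod.snd m3⟩
  have xc1 : ∀ i ζ, (gc i).2 < oo → ζ < (gc i).2 → ∃ m, ch cv m i ∧ (gc m).2 = ζ := fun i ζ a b => by
    obtain ⟨j, rfl⟩ := en2 _ a ζ b
    exact xc i j (b.trans a).le (.inl b)
  have xc2 : ∀ i, ∃ m, (gc i).2 = oo → ch cv m i ∧ (gc m).2 = oo := fun i => by
    by_cases a : (gc i).2 = oo
    · obtain ⟨m, z⟩ := xc i 0 (by rw [a, en1]) (.inr a)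
      exact ⟨m, fun _ => ⟨z.1, by rw [z.2, a, en1]⟩⟩
    · exact ⟨0, fun z => (a z).elim⟩
  have xd : ∀ i ζ, (gd i).2 < oo → ζ < (gd i).2 → ∃ m, ch x₀ m i ∧ (gd m).2 = ζ := fun i ζ a b => by
    obtain ⟨j, rfl⟩ := en2 _ a ζ b
    obtain ⟨k, h⟩ := und (i + 1)
    obtain ⟨k', h1, h2⟩ := often (4, i, j, 0, rt 0 0 0) k
    have h3 : i < (p k').2.length := h.trans (ale.pre (mo _ _ h1)).1.length_le
    have := (tk k').2.2.2.2.1
    rw [h2, show tg (p k').2 i = (gd i).2 from congrArg Prod.snd (hd k' i h3)] at this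
    obtain ⟨m, m1, m2, m3⟩ := this rfl h3 b
    rw [hd _ _ m2] at m3
    exact ⟨m, ⟨congrArg Prod.fst m3, m1⟩, congrArg Prod.snd m3⟩
  choose ν b hν using fun k => (tk k).2.2.2.2.2
  let γ : Set ℕ := {n | ∃ k x, (e k).1 = 5 ∧ Rz (p k) x.1 x.2 ∧ n = Nat.pair k (ν k x) ∧ b k x = false}
  refine ⟨y, P, cv, x₀, γ, fun j => cd_true, ⟨fun n => ?_, fun m hm => ?_⟩, ?_, fun c r hr wf a => ?_,
    fun x hx c c' H => ?_⟩
  · obtain ⟨k, h⟩ := und n
    exact ⟨k, _, (v k).1.2.1, by rw [hd.map k, pre_range (by simpa using h)]; simp [x₀]⟩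
  · rcases (sc m).lt_or_eq with a | a
    · right
      obtain ⟨k, h⟩ := unb (m + 1)
      obtain ⟨q, q1, q2⟩ := (v k).2.2.2 m h (hm.trans (congrArg Prod.fst (hc k m h)).ge)
        ((congrArg Prod.snd (hc k m h)).trans_lt a)
      rw [tg, tg, hc k m h, hd k q (by rw [ld]; omega)] at q2
      have : ∀ q ζ, ∃ m, ζ < (gd q).2 → ch x₀ m q ∧ (gd m).2 = ζ := fun q ζ => by
        by_cases c : ζ < (gd q).2
        · exact (xd q ζ (sd q) c).imp fun _ z _ => z
        · exact ⟨0, fun z => (c z).elim⟩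
      choose cf hcf using this
      let g : ℕ → ℕ := fun i => Nat.strongRec (motive := fun _ => ℕ) (fun i rec => if i = m then q + 1 else
        if h : cv i < i then (if rec _ h = 0 then 0 else cf (rec _ h - 1) (gc i).2 + 1) else 0) i
      have hg : ∀ i, g i = if i = m then q + 1 else
          if cv i < i then (if g (cv i) = 0 then 0 else cf (g (cv i) - 1) (gc i).2 + 1) else 0 := fun i => by
        simp only [g]
        rw [Nat.strongRec_eq]
        rfl
      have gm : g m = q + 1 := by rw [hg, if_pos rfl]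
      have st : ∀ i j r, ch cv i j → g j = r + 1 → g i = cf r (gc i).2 + 1 := fun i j r c z => by
        have n : i ≠ m := by rintro rfl; exact (c.1 ▸ c.2 : cv i < i).not_ge hm
        rw [hg, if_neg n, c.1, if_pos c.2, z, if_neg (Nat.succ_ne_zero _), Nat.add_sub_cancel]
      have inv : ∀ i r, g i = r + 1 → (gc i).2 ≤ (gd r).2 := fun i => by
        induction i using Nat.strong_induction_on with
        | _ i ih =>
        intro r z
        by_cases n : i = m
        · rw [n, gm] at z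
          rw [n, ← Nat.succ.inj z]; exact q2
        by_cases c : cv i < i
        swap
        · rw [hg, if_neg n, if_neg c] at z; cases z
        rcases w : g (cv i) with _ | r'
        · rw [hg, if_neg n, if_pos c, if_pos w] at z; cases z
        have := ih _ c _ w
        rw [st i _ _ ⟨rfl, c⟩ w] at z
        rw [← Nat.succ.inj z, (hcf _ _ (((fc i _ ⟨rfl, c⟩).resolve_right (this.trans_lt (sd _)).ne).trans_le this)).2]
      refine ⟨g, by omega, by omega, fun i j r c z => ⟨_, st i j r c z, (hcf _ _ ?_).1⟩⟩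
      exact ((fc i j c).resolve_right ((inv _ _ z).trans_lt (sd _)).ne).trans_le (inv _ _ z)
    · left
      choose s hs using xc2
      have : ∀ i, (gc (s^[i] m)).2 = oo := fun i => by
        induction i with
        | zero => exact a
        | succ i ih => rw [Function.iterate_succ_apply']; exact (hs _ ih).2
      exact ⟨fun i => s^[i] m, rfl, fun i => by
        beta_reduce; rw [Function.iterate_succ_apply']; exact (hs _ (this i)).1⟩
  · exact Subrelation.wf (r := InvImage (· < ·) fun i => (gd i).2)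
      (fun {i j} z => (fd i j z).resolve_right (sd j).ne) (InvImage.wf _ wellFounded_lt)
  · have rd : ∀ a' a k, r a' a → ∃ k', k ≤ k' ∧ dec (We c) (p k').1 a' a := fun a' a k z => by
      obtain ⟨m, z⟩ := (hr _ _).1 z
      obtain ⟨k', z1, z2⟩ := unb' m k
      exact ⟨k', z1, (hdec _ _ _ _).2 ⟨m, z2, z⟩⟩
    have nb : ∀ a k, ¬ Bad (We c) (p k).1 a := fun a => by
      induction a using wf.induction with
      | _ a ih =>
      intro k z
      obtain ⟨k', h1, h2⟩ := often (1, c, a, 0, rt 0 0 0) k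
      have := (tk k').2.1
      rw [h2] at this
      obtain ⟨a', a1, a2⟩ := this rfl (z.mono (ml _ _ h1))
      obtain ⟨m, -, a3⟩ := (hdec _ _ _ _).1 a1
      exact ih a' ((hr _ _).2 ⟨m, a3⟩) _ a2
    have tr : ∀ ξ, ξ < oo → ∀ k a, F (We c) ξ (p k).1 a → ∀ ζ, ht r ζ a → ζ ≤ ξ := fun ξ => by
      induction ξ using WellFoundedLT.induction with
      | ind ξ ih =>
      intro s k a f ζ z
      by_contra w
      rw [ht] at z
      obtain ⟨a', a1, a2⟩ := z ξ (not_le.1 w)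
      obtain ⟨k1, b1, b2⟩ := rd _ _ k a1
      obtain ⟨k', h1, h2⟩ := often (2, c, a, a', rt 0 0 0) k1
      have := (tk k').2.2.1
      rw [h2] at this
      obtain ⟨ξ', c1, c2⟩ := this rfl ξ s (f.mono (ml _ _ (b1.trans h1))) (b2.mono (ml _ _ h1) (vv _))
      exact (ih ξ' c1 (c1.trans s) _ _ c2 _ a2).not_gt c1
    obtain ⟨k, -, ξ, ⟨m, m1, -, -, m2, -⟩, -, z⟩ := t0 c a 0
    obtain ⟨z1, z2⟩ := z.resolve_left (nb _ _)
    rw [tg, hd _ m (by rw [ld]; omega)] at m2
    exact ⟨ξ, tr ξ z1 _ _ z2, m, _, m2, ht_exact xd (sd m)⟩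
  choose θ θ1 θ2 using fun i => thread vv ml (hx i).1
  have θl : ∀ i k, (θ i k).length = (p k).1.c.length := fun i k => (θ1 i k).1.elim fun _ z => ((vv k).2.2 _ z).1
  have θx : ∀ i k a, a < (p k).1.c.length → xf (θ i k) a = x i a := fun i k a h => by
    have := congrArg (fun l => l.getD a 0) (θ1 i k).2
    simpa [xf, List.getD_eq_getElem?_getD, h, θl i k] using this
  let K : KK := fun i => θ i = fun k => (p k).2
  have sep : ∀ u u' : ℕ → St, (∀ k k', k ≤ k' → u k <+: u k') → (∀ k k', k ≤ k' → u' k <+: u' k') →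
      (∀ k, (u k).length = (u' k).length) → ∀ᶠ k in atTop, u k = u' k → u = u' := fun u u' a1 a2 a3 => by
    by_cases c : u = u'
    · exact .of_forall fun _ _ => c
    obtain ⟨k, c⟩ := Function.ne_iff.1 c
    filter_upwards [eventually_ge_atTop k] with k' z w
    exact (c ((List.prefix_of_prefix_length_le (a1 _ _ z) (w ▸ a2 _ _ z) (a3 k).le).eq_of_length (a3 k))).elim
  have free : ∀ i, ∀ᶠ k in atTop, ¬ K i → ∃ e ∈ θ i k, e.2 = oo := fun i => by
    by_cases c : K i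
    · exact .of_forall fun _ z => (z c).elim
    obtain ⟨k1, s⟩ := eventually_atTop.1 (sep (θ i) (fun k => (p k).2) (θ2 i) (fun k k' h => (ale.pre (mo k k' h)).1)
      fun k => (θl i k).trans (ld k).symm)
    obtain ⟨k, h1, ξ, ⟨m, m1, m2, m3, -, m4⟩, -⟩ := t0 0 0 k1
    obtain ⟨a, ha⟩ := (θ1 i (k + 1)).1
    rcases m4 _ ha with z | ⟨e, z1, z2⟩ | z
    · exact (c (s _ (by omega) z)).elim
    · filter_upwards [eventually_ge_atTop (k + 1)] with k' w _ using ⟨e, (θ2 i _ _ w).subset z1, z2⟩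
    exfalso
    have un : ∀ n, ∃ k, n ≤ (θ i k).length := fun n => (unb n).imp fun k h => (θl i k).symm ▸ h
    obtain ⟨g, hg⟩ := limSt (θ2 i) un
    have gx : x i = fun a => (g a).1 := funext fun a => by
      obtain ⟨k, h⟩ := unb (a + 1)
      rw [← θx i k a h, xf, hg k a ((θl i k).symm ▸ h)]
    have fg := hg.fo un fun k => (θ1 i k).1.elim fun _ z => (v k).2.2.1 _ z
    rw [xf, hc (k + 1) m (by beta_reduce; omega)] at m2
    rw [tg, hc (k + 1) m (by beta_reduce; omega)] at m3 z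
    rcases (hx i).2 m m2 with ⟨f, f1, f2⟩ | ⟨f, f1, f2, f3⟩
    · exact (ht_tag fc (f1 ▸ ht_path f2 ((gc m).2 + 1) 0) m3).not_gt (Order.add_one_le_iff.1 le_rfl)
    · obtain ⟨q, hq⟩ := Nat.exists_eq_succ_of_ne_zero f1
      have l : q < (θ i (k + 1)).length := by rw [θl]; omega
      have := hg _ _ l ▸ z _ (gD_mem l)
      exact (ht_tag fg (gx ▸ ht_emb f3 (ht_exact xc1 m3) hq) (this.trans m3)).not_gt this
  obtain ⟨k₀, hk⟩ := eventually_atTop.1 ((eventually_all.2 free).and (eventually_all.2 fun i => eventually_all.2 fun j =>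
    sep (θ i) (θ j) (θ2 i) (θ2 j) fun k => (θl i k).trans (θl j k).symm))
  let q : ℕ → Q := fun k i => θ i k
  have rz : ∀ k, k₀ ≤ k → Rz (p k) K (q k) := fun k h i => ⟨fun z => congrFun z k, fun z => by
    obtain ⟨e, e1, e2⟩ := (hk k h).1 i z
    obtain ⟨a, ha⟩ := (θ1 i k).1
    have : a = oo := (((vv k).2.2 _ ha).2.2 e e1).resolve_left (e2 ▸ ((vv k).2.1.2 _ ha).1.not_gt)
    exact ⟨this ▸ ha, e, e1, e2⟩⟩
  have ql : ∀ k k', k₀ ≤ k → k ≤ k' → qle K (q k) (q k') := fun k k' h h' =>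
    ale.qle (mo _ _ h') (v k).1 (fun i => (θ1 i k).1) (fun i => (θ1 i k').1) (fun i => θ2 i _ _ h')
      (fun i z => congrFun z k') fun i j z => congrFun ((hk k h).2 i j z) k'
  have hz : ∀ k m, m ≤ (p k).1.c.length → zp (q k) m = (List.range m).map (join fun i => hat (x i)) :=
    fun k m h => join_congr fun i a z => θx i k a (z.trans_le h)
  have t5 : ∀ c c' m pos k, ∃ k', k ≤ k' ∧ k₀ ≤ k' ∧ (e k').1 = 5 ∧
      Act K (q (k' + 1)) c c' (Nat.pair k' (ν k' (K, q k'))) (b k' (K, q k')) ∧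
      (Z K (q k') pos → DD (Z K) (sx pos m) (q (k' + 1))) := fun c c' m pos k => by
    obtain ⟨k', h1, h2⟩ := often (5, c, c', m, pos) (max k k₀)
    have h3 := (le_max_right _ _).trans h1
    have := hν k'
    rw [h2] at this
    exact ⟨k', (le_max_left _ _).trans h1, h3, by rw [h2], (this rfl).2 (K, q k') (rz _ h3) _ (rz _ (by omega))
      fun i => θ2 i _ _ (by omega)⟩
  have key : ∀ c c' n t k, k₀ ≤ k → Z K (q k) (c, c', n, [], t) → WFb c' n (join fun i => hat (x i)) →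
      WFb c n (join fun i => hat (x i)) := fun c c' n t₀ k₁ h₁ h₀ hw f => by
    by_contra hf
    have st : ∀ j t, ∃ m, (∃ k, k₀ ≤ k ∧ Z K (q k) (c, c', n, (List.range j).map f, t)) →
        ∃ k, k₀ ≤ k ∧ Z K (q k) (c, c', n, (List.range (j + 1)).map f, t ++ [m]) := fun j t => by
      by_cases z : ∃ k, k₀ ≤ k ∧ Z K (q k) (c, c', n, (List.range j).map f, t)
      swap
      · exact ⟨0, fun y => (z y).elim⟩
      obtain ⟨k, z0, z⟩ := z
      obtain ⟨k', a, a', -, -, b⟩ := t5 0 0 (f j) (c, c', n, (List.range j).map f, t) k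
      have e : (List.range (j + 1)).map f = (List.range j).map f ++ [f j] := by simp [List.range_succ]
      rcases b (z.mono (ql _ _ z0 a)) with ⟨m, m1, m2, m3⟩ | ⟨m, y⟩
      · refine (hf ⟨m, ?_⟩).elim
        have e2 : ((List.range j).map f ++ [f j]).take m = (List.range m).map f := by
          rw [← e, ← List.map_take, List.take_range, min_eq_left]
          simp [sx] at m1
          omega
        rw [← hz (k' + 1) m (θl 0 _ ▸ m2 0), ← e2]
        exact m3
      · exact ⟨m, fun _ => ⟨k' + 1, by omega, e ▸ y⟩⟩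
    choose M hM using st
    let t : ℕ → List ℕ := fun j => Nat.rec t₀ (fun j x => x ++ [M j x]) j
    have ht : ∀ j, ∃ k, k₀ ≤ k ∧ Z K (q k) (c, c', n, (List.range j).map f, t j) := fun j => by
      induction j with
      | zero => exact ⟨k₁, h₁, h₀⟩
      | succ j ih => exact hM _ _ ih
    have tl : ∀ j, j ≤ (t j).length := fun j => by
      induction j with
      | zero => exact Nat.zero_le _
      | succ j ih =>
        show j + 1 ≤ (t j ++ [M j (t j)]).length
        simpa using ih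
    obtain ⟨f', hf'⟩ := limS t (fun k => List.prefix_append _ _) tl
    obtain ⟨m, hm⟩ := hw f'
    obtain ⟨k, hk0, hk⟩ := ht (m + 1)
    obtain ⟨k', l1, l2⟩ := unb' m k
    refine (Z_post _ _ _ (hk.mono (ql _ _ hk0 l1))).1 ⟨m, tl (m + 1), fun i => (θl i k').symm ▸ l2, ?_⟩
    rwa [← hz k' m l2, hf' (m + 1) m (by have := tl (m + 1); omega)] at hm
  obtain ⟨k, -, a1, a2, a3, -⟩ := t5 c c' 0 (rt 0 0 0) 0
  obtain ⟨H1, H2⟩ := H (Nat.pair k (ν k (K, q k)))
  rcases a3 with ⟨z1, z2⟩ | ⟨z1, m, z2⟩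
  · have : Nat.pair k (ν k (K, q k)) ∉ γ := by
      rintro ⟨k', x', -, w1, w2, w3⟩
      obtain ⟨rfl, w⟩ := Nat.pair_eq_pair.1 w2
      rw [← (hν k a2).1 (rz _ a1) w1 w, z1] at w3
      cases w3
    exact this (H1.2 (key _ _ _ _ _ (by omega) z2 (H2.1 this)))
  · have : Nat.pair k (ν k (K, q k)) ∈ γ := ⟨k, _, a2, rz _ a1, rfl, z1⟩
    exact H2.2 (key _ _ _ _ _ (by omega) z2 (H1.1 this)) this

end Pool.Agent.H.MP_120e55_lc
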