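import Pool.Agent.H.MP_120e55_lc.E
import Pool.Agent.Lib.helper21.RI

set_option autoImplicit false

/-! Computable ordinals, the Kleene-Brouwer order and the analytic normal form. -/

namespace Pool.Agent.H.MP_120e55_lc

open Pool.Agent.Lib.helper21.PR Set Encodable Denumerable Nat.Partrec Nat.Partrec.Code Filter Ordinal
open MP_64713a_lc (dS dS_enc p_dS)
open Pool.Agent.H.MP_fa2eca_lc

attribute [local irreducible] Primrec Computable

def CO (x : ℕ → Bool) (o : O) : Prop := ∃ (S : ℕ → Bool) (r : ℕ → ℕ → Bool), CI x S ∧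
  CI x (fun n : ℕ => r n.unpair.1 n.unpair.2) ∧
  ∃ _ : IsWellOrder {n // S n = true} (fun a b => r a b = true),
    type (fun a b : {n // S n = true} => r a b = true) = o

theorem ci_two {x : ℕ → Bool} {r : ℕ → ℕ → Bool} (h : CI x fun n : ℕ => r n.unpair.1 n.unpair.2) :
    CI x fun z : ℕ × ℕ => r z.1 z.2 :=
  (ci_comp (g := fun z : ℕ × ℕ => Nat.pair z.1 z.2) h (by fun_prop)).of_eq fun _ => by simp

theorem CO.lt {x : ℕ → Bool} {o : O} (h : CO x o) : o < oo := by
  obtain ⟨S, r, -, -, w, rfl⟩ := h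
  rw [show oo = (Cardinal.aleph 1).ord from (Cardinal.ord_aleph 1).symm, Cardinal.lt_ord, card_type]
  exact Cardinal.mk_le_aleph0.trans_lt Cardinal.aleph0_lt_aleph_one

theorem CO.down {x : ℕ → Bool} {o o' : O} (h : CO x o) (k : o' < o) : CO x o' := by
  obtain ⟨S, r, h1, h2, w, rfl⟩ := h
  obtain ⟨a, rfl⟩ := typein_surj _ k
  have h3 := ci_two h2
  have h4 : CI x fun n => r n a := ci_comp (g := fun n => (n, a.1)) h3 (by fun_prop)
  let e : (fun b c : {n // cd (S n = true ∧ r n a = true) = true} => r b c = true) ≃r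
      Subrel (fun b c : {n // S n = true} => r b c = true) (fun b => r b a = true) :=
    ⟨⟨fun b => ⟨⟨b, (cd_true.1 b.2).1⟩, (cd_true.1 b.2).2⟩, fun b => ⟨b.1, cd_true.2 ⟨b.1.2, b.2⟩⟩,
      fun _ => rfl, fun _ => rfl⟩, Iff.rfl⟩
  have w' := e.toRelEmbedding.isWellOrder
  exact ⟨fun n => cd (S n = true ∧ r n a = true), r, by fun_prop, h2, w', e.ordinalType_congr⟩

theorem CO.top {y : ℕ → Bool} {o : O} (h : CO y o) : ∃ e, ∃ r : ℕ → ℕ → Prop,
    (∀ a' a, r a' a ↔ ∃ m, We e (a', a, (List.range m).map y)) ∧ WellFounded r ∧ ht r o 0 := by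
  obtain ⟨S, r, h1, h2, w, rfl⟩ := h
  have h3 := ci_two h2
  let R : ℕ → ℕ → Prop := fun a' a => a' ≠ 0 ∧ S (a' - 1) = true ∧
    (a = 0 ∨ (S (a - 1) = true ∧ r (a' - 1) (a - 1) = true))
  have h4 : CI y fun z : ℕ × ℕ => r (z.1 - 1) (z.2 - 1) :=
    ci_comp (g := fun z : ℕ × ℕ => (z.1 - 1, z.2 - 1)) h3 (by fun_prop)
  have h5 : RI y fun z : ℕ × ℕ => R z.1 z.2 := RI.un (i_ci (by unfold R; fun_prop))
  rw [RI] at h5
  obtain ⟨W, w1, w2, w3⟩ := h5
  have w4 : RE fun z : ℕ × ℕ × List Bool => W ((z.1, z.2.1), z.2.2) :=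
    r_comp (f := fun z : ℕ × ℕ × List Bool => ((z.1, z.2.1), z.2.2)) w1 (by fun_prop)
  obtain ⟨c, hc⟩ := exists_code.1 (r_pw w4).re
  have ac : ∀ a : {n // S n = true}, Acc R (a.1 + 1) := fun a => by
    induction a using w.wf.induction with
    | _ a ih =>
    refine ⟨_, fun b ⟨b1, b2, b3⟩ => ?_⟩
    have := ih ⟨b - 1, b2⟩ (b3.resolve_left (Nat.succ_ne_zero _)).2
    rwa [Nat.sub_add_cancel (Nat.pos_of_ne_zero b1)] at this
  have hh : ∀ ζ (a : {n // S n = true}), typein (fun a b : {n // S n = true} => r a b = true) a = ζ →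
      ht R ζ (a.1 + 1) := fun ζ => by
    induction ζ using WellFoundedLT.induction with
    | ind ζ ih =>
    intro a e
    rw [ht]
    intro ζ' z
    obtain ⟨b, rfl⟩ := typein_surj _ (z.trans (e ▸ typein_lt_type _ a))
    exact ⟨b.1 + 1, ⟨Nat.succ_ne_zero _, b.2, .inr ⟨a.2,
      (typein_lt_typein (fun a b : {n // S n = true} => r a b = true) (a := b) (b := a)).1 (e ▸ z)⟩⟩, ih _ z b rfl⟩
  refine ⟨encode c, R, fun a' a => ?_, ⟨fun a => ⟨_, fun b ⟨b1, b2, _⟩ => ?_⟩⟩, ?_⟩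
  · have : ∀ l, We (encode c) (a', a, l) ↔ W ((a', a), l) := fun l => by
      rw [We, ofNat_encode, hc, Part.dom_iff_mem]
      simp [Part.mem_assert_iff]
    simp only [this]
    exact ⟨fun z => (w3 (a', a) z).exists, fun ⟨m, z⟩ => w2 (a', a) m z⟩
  · have := ac ⟨b - 1, b2⟩
    rwa [Nat.sub_add_cancel (Nat.pos_of_ne_zero b1)] at this
  · rw [ht]
    intro ζ z
    obtain ⟨b, rfl⟩ := typein_surj _ z
    exact ⟨b.1 + 1, ⟨Nat.succ_ne_zero _, b.2, .inl rfl⟩, hh _ b rfl⟩

def kb : List ℕ → List ℕ → Prop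
  | [], _ => False
  | _ :: _, [] => True
  | a :: l, b :: l' => a < b ∨ (a = b ∧ kb l l')

theorem kb_iff : ∀ l l' : List ℕ, kb l l' ↔
    ∃ k < l.length, l.take k = l'.take k ∧ (l'.length ≤ k ∨ l.getD k 0 < l'.getD k 0)
  | [], _ => by simp [kb]
  | _ :: _, [] => iff_of_true trivial ⟨0, by simp⟩
  | a :: l, b :: l' => by
    rw [kb, kb_iff]
    constructor
    · rintro (h | ⟨rfl, k, h1, h2, h3⟩)
      · exact ⟨0, by simpa using h⟩
      · exact ⟨k + 1, by simpa using ⟨h1, h2, by simpa using h3⟩⟩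
    · rintro ⟨_ | k, h1, h2, h3⟩
      · exact .inl (by simpa using h3)
      · simp only [List.take_succ_cons, List.cons.injEq] at h2
        exact .inr ⟨h2.1, k, by simpa using h1, h2.2, by simpa using h3⟩

theorem kb_tri : ∀ l l' : List ℕ, ¬ kb l l' → ¬ kb l' l → l = l'
  | [], [], _, _ => rfl
  | [], _ :: _, _, h => (h trivial).elim
  | _ :: _, [], h, _ => (h trivial).elim
  | a :: l, b :: l', h, k => by
    rw [kb, not_or] at h k
    obtain rfl : a = b := by omega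
    rw [kb_tri l l' (fun z => h.2 ⟨rfl, z⟩) fun z => k.2 ⟨rfl, z⟩]

theorem kb_snoc : ∀ (s : List ℕ) (n : ℕ), kb (s ++ [n]) s
  | [], _ => trivial
  | _ :: s, n => .inr ⟨rfl, kb_snoc s n⟩

theorem kb_pre : ∀ (s t : List ℕ), kb t s → s <+: t → ∃ n, s ++ [n] <+: t
  | _, [], h, _ => h.elim
  | [], a :: _, _, _ => ⟨a, by simp⟩
  | a :: s, b :: t, h, k => by
    obtain ⟨rfl, k'⟩ := List.cons_prefix_cons.1 k
    obtain ⟨n, z⟩ := kb_pre s t (h.resolve_left (lt_irrefl _)).2 k'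
    exact ⟨n, List.cons_prefix_cons.2 ⟨rfl, z⟩⟩

theorem kb_step : ∀ (s t : List ℕ) (n : ℕ), kb t (s ++ [n]) → ¬ s ++ [n] <+: t →
    (∃ n' < n, s ++ [n'] <+: t) ∨ (kb t s ∧ ¬ s <+: t)
  | _, [], _, h, _ => h.elim
  | [], a :: t, n, h, k => .inl ⟨a, h.resolve_right fun z => k (by simp [z.1]), by simp⟩
  | a :: s, b :: t, n, h, k => by
    rcases h with h | ⟨rfl, h⟩
    · exact .inr ⟨.inl h, fun z => h.ne' (List.cons_prefix_cons.1 z).1⟩
    · exact (kb_step s t n h fun z => k (List.cons_prefix_cons.2 ⟨rfl, z⟩)).imp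
        (fun ⟨n', a, z⟩ => ⟨n', a, List.cons_prefix_cons.2 ⟨rfl, z⟩⟩)
        fun z => ⟨.inr ⟨rfl, z.1⟩, fun y => z.2 (List.cons_prefix_cons.1 y).2⟩

theorem kb_wf {T : List ℕ → Prop} (h1 : ∀ s t, s <+: t → T t → T s)
    (h2 : WellFounded fun t s => T t ∧ ∃ n, t = s ++ [n]) : WellFounded fun a b => T a ∧ kb a b := by
  have main : ∀ s, (∀ t, T t → kb t s → ¬ s <+: t → Acc (fun a b => T a ∧ kb a b) t) →
      ∀ t, T t → s <+: t → Acc (fun a b => T a ∧ kb a b) t := fun s => by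
    induction s using h2.induction with
    | _ s ih =>
    intro H
    have a : ∀ n t, T t → s ++ [n] <+: t → Acc (fun a b => T a ∧ kb a b) t := fun n => by
      induction n using Nat.strong_induction_on with
      | _ n ih' =>
      exact fun t z y => ih _ ⟨h1 _ _ y z, n, rfl⟩ (fun t' b c d => (kb_step _ _ _ c d).elim
        (fun ⟨n', x, w⟩ => ih' n' x t' b w) fun x => H t' b x.1 x.2) t z y
    intro t z ⟨u, y⟩
    rcases u with _ | ⟨n, u⟩
    · rw [List.append_nil] at y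
      subst y
      refine ⟨_, fun t' b => ?_⟩
      by_cases c : s <+: t'
      · exact (kb_pre _ _ b.2 c).elim fun n x => a n t' b.1 x
      · exact H t' b.1 b.2 c
    · exact a n t z ⟨u, by simpa using y⟩
  exact ⟨fun s => ⟨_, fun t z => main [] (fun _ _ _ y => (y List.nil_prefix).elim) t z.1 List.nil_prefix⟩⟩

theorem ci_hat (x : ℕ → ℕ) : CI (hat x) x := by
  have := ci_self (hat x)
  refine CI.mk (R := fun i v => ∃ j, hat x j = true ∧ (dS j).length = i + 1 ∧ (dS j).getD i 0 = v) (by fun_prop)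
    fun i v => ⟨fun ⟨j, a, b, c⟩ => ?_, fun e => ⟨encode ((List.range (i + 1)).map x), ?_⟩⟩
  · rw [of_decide_eq_true a, b] at c
    simpa [List.getD_eq_getElem?_getD] using c
  · simp [hat, dS_enc, List.getD_eq_getElem?_getD, e]

theorem kbCO {x : ℕ → ℕ} (wf : WellFounded (ch x)) : ∃ κ, CO (hat x) κ ∧ ∀ ρ i, ht (ch x) ρ i → ρ < κ := by
  let T : List ℕ → Prop := fun l => ∀ k < l.length, k + 1 < l.length →
    x (l.getD (k + 1) 0) = l.getD k 0 ∧ l.getD k 0 < l.getD (k + 1) 0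
  have h1 : ∀ s t, s <+: t → T t → T s := fun s t a b k c d => by
    rw [← MP_64713a_lc.getD_pre a c, ← MP_64713a_lc.getD_pre a d]
    exact b k (c.trans_le a.length_le) (d.trans_le a.length_le)
  have g : ∀ (s : List ℕ) a, (s ++ [a]).getD s.length 0 = a := fun s a => by simp [List.getD_eq_getElem?_getD]
  have sn : ∀ s i j, T (s ++ [i] ++ [j]) ↔ T (s ++ [i]) ∧ ch x j i := fun s i j => by
    have e1 : (s ++ [i] ++ [j]).getD s.length 0 = i :=
      (MP_64713a_lc.getD_pre (List.prefix_append _ _) (by simp)).trans (g s i)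
    have e2 : (s ++ [i] ++ [j]).getD (s.length + 1) 0 = j := by simp
    refine ⟨fun z => ⟨h1 _ _ (List.prefix_append _ _) z, ?_⟩, fun z k a b => ?_⟩
    · have := z s.length (by simp) (by simp)
      rwa [e1, e2] at this
    · rcases Nat.lt_succ_iff_lt_or_eq.1 (show k < s.length + 1 by simp at b; omega) with c | rfl
      · rw [MP_64713a_lc.getD_pre (List.prefix_append (s ++ [i]) [j]) (by simp; omega),
          MP_64713a_lc.getD_pre (List.prefix_append (s ++ [i]) [j]) (by simp; omega)]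
        exact z.1 k (by simp; omega) (by simp; omega)
      · rw [e1, e2]; exact z.2
  have ac : ∀ i s, Acc (fun t s => T t ∧ ∃ n, t = s ++ [n]) (s ++ [i]) := fun i => by
    induction i using wf.induction with
    | _ i ih =>
    refine fun s => ⟨_, ?_⟩
    rintro _ ⟨z, n, rfl⟩
    exact ih n ((sn _ _ _).1 z).2 _
  have w := kb_wf h1 ⟨fun s => ⟨_, by rintro _ ⟨-, n, rfl⟩; exact ac n s⟩⟩
  have inj : ∀ a b, dS a = dS b → a = b := fun a b z => by
    simp only [dS, decode_eq_ofNat, Option.getD_some] at z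
    rw [← encode_ofNat (α := List ℕ) a, z, encode_ofNat]
  have wo : IsWellOrder {n // cd (T (dS n)) = true} fun a b => cd (kb (dS a) (dS b)) = true :=
    { wf := Subrelation.wf (fun {a b} z => ⟨cd_true.1 a.2, cd_true.1 z⟩)
        (InvImage.wf (fun a : {n // cd (T (dS n)) = true} => dS a) w)
      trichotomous := fun a b y z => Subtype.ext (inj _ _ (kb_tri _ _ (mt cd_true.2 y) (mt cd_true.2 z))) }
  have hx := ci_hat x
  refine ⟨_, ⟨fun n => cd (T (dS n)), fun a b => cd (kb (dS a) (dS b)), by unfold T; fun_prop,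
    ci_prim (by simp only [kb_iff]; fun_prop), wo, rfl⟩, fun ρ i h => ?_⟩
  have : ∀ ρ i, ht (ch x) ρ i → ∀ s (a : {n // cd (T (dS n)) = true}), dS a = s ++ [i] →
      ρ ≤ typein (fun a b : {n // cd (T (dS n)) = true} => cd (kb (dS a) (dS b)) = true) a := fun ρ => by
    induction ρ using WellFoundedLT.induction with
    | ind ρ ih =>
    intro i h s a e
    rw [ht] at h
    by_contra z
    obtain ⟨j, j1, j2⟩ := h _ (not_le.1 z)
    let b : {n // cd (T (dS n)) = true} := ⟨encode (s ++ [i] ++ [j]), by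
      rw [dS_enc]; exact cd_true.2 ((sn _ _ _).2 ⟨e ▸ cd_true.1 a.2, j1⟩)⟩
    exact (ih _ (not_le.1 z) j j2 _ b (dS_enc _)).not_gt ((typein_lt_typein _).2 (cd_true.2 (by
      rw [e, show dS b = _ from dS_enc _]; exact kb_snoc _ _)))
  exact (this ρ i h [] ⟨encode [i], by rw [dS_enc]; exact cd_true.2 fun k _ z => by simp at z⟩
    (dS_enc _)).trans_lt (typein_lt_type _ _)

end Pool.Agent.H.MP_120e55_lc
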