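import Pool.Agent.H.MP_120e55_lc.F

set_option autoImplicit false

/-! The analytic normal form of the set of admissible branches. -/

namespace Pool.Agent.H.MP_120e55_lc

open Pool.Agent.Lib.helper21.PR Set Encodable Denumerable Filter
open MP_64713a_lc (dS dS_enc p_dS)

attribute [local irreducible] Primrec Computable

def psi (j m i a b : ℕ) (z y : ℕ → Bool) (f : ℕ → ℕ) : Prop :=
  (z j = true ↔ dS j = (List.range (dS j).length).map fun k => f (Nat.pair 0 k)) ∧
  ((dS j = (List.range (dS j).length).map fun k => f (Nat.pair 0 k)) → y (encode (true, dS j)) = true) ∧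
  ((dS j = (List.range (dS j).length).map fun k => f (Nat.pair 1 k)) → y (encode (false, dS j)) = true) ∧
  (m ≤ f (Nat.pair 1 m) → (f (Nat.pair 2 m) = 0 → f (Nat.pair (m + 3) 0) = m ∧
      (f (Nat.pair (m + 3) i) = a → f (Nat.pair (m + 3) (i + 1)) = b → f (Nat.pair 1 b) = a ∧ a < b)) ∧
    (f (Nat.pair 2 m) ≠ 0 → (f (Nat.pair (m + 3) m) ≠ 0 ∧ f (Nat.pair (m + 3) m) ≤ m + 1) ∧
      (f (Nat.pair 1 i) = j → j < i → f (Nat.pair (m + 3) j) = a + 1 → f (Nat.pair (m + 3) i) ≠ 0 ∧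
        (f (Nat.pair (m + 3) i) = b + 1 → f (Nat.pair 0 b) = a ∧ a < b))))

def bd (j m i b : ℕ) : ℕ := j + encode (true, dS j) + encode (false, dS j) + Nat.pair 0 j + Nat.pair 1 j +
  Nat.pair 1 m + Nat.pair 2 m + Nat.pair (m + 3) 0 + Nat.pair (m + 3) m + Nat.pair (m + 3) i +
  Nat.pair (m + 3) (i + 1) + Nat.pair 1 b + Nat.pair 1 i + Nat.pair (m + 3) j + Nat.pair 0 b + 1

theorem psi_congr {j m i a b : ℕ} {z y z' y' : ℕ → Bool} {f f' : ℕ → ℕ}
    (h : ∀ n < bd j m i b, z n = z' n ∧ y n = y' n ∧ f n = f' n) (k : psi j m i a b z y f) :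
    psi j m i a b z' y' f' := by
  unfold bd at h
  have e : ∀ c, c = 0 ∨ c = 1 → ((List.range (dS j).length).map fun k => f (Nat.pair c k)) =
      (List.range (dS j).length).map fun k => f' (Nat.pair c k) := fun c hc => List.map_congr_left fun k w => by
    have := Nat.pair_lt_pair_right c ((List.mem_range.1 w).trans_le (dS_len j))
    exact (h _ (by rcases hc with rfl | rfl <;> omega)).2.2
  unfold psi at k ⊢
  rwa [← e 0 (.inl rfl), ← e 1 (.inr rfl), ← (h j (by omega)).1, ← (h (encode (true, dS j)) (by omega)).2.1,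
    ← (h (encode (false, dS j)) (by omega)).2.1, ← (h (Nat.pair 1 m) (by omega)).2.2,
    ← (h (Nat.pair 2 m) (by omega)).2.2, ← (h (Nat.pair (m + 3) 0) (by omega)).2.2,
    ← (h (Nat.pair (m + 3) m) (by omega)).2.2, ← (h (Nat.pair (m + 3) i) (by omega)).2.2,
    ← (h (Nat.pair (m + 3) (i + 1)) (by omega)).2.2, ← (h (Nat.pair 1 b) (by omega)).2.2,
    ← (h (Nat.pair 1 i) (by omega)).2.2, ← (h (Nat.pair (m + 3) j) (by omega)).2.2,
    ← (h (Nat.pair 0 b) (by omega)).2.2]

theorem dB_enc (p : Bool × List ℕ) : dB (encode p) = p := by rw [dB, encodek]; rfl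

theorem sigma {y : ℕ → Bool} {P : List ℕ → Prop} {cv : ℕ → ℕ}
    (hy : ∀ j, y j = true ↔ ((dB j).1 = true ∧ P (dB j).2) ∨
      ((dB j).1 = false ∧ (dB j).2 = (List.range (dB j).2.length).map cv)) :
    ∃ R : List Bool × List Bool × List ℕ → Prop, ComputablePred R ∧ ∀ z, (∃ x, Mem P cv x ∧ z = hat x) ↔
      ∃ f : ℕ → ℕ, ∀ n, R ((List.range n).map z, (List.range n).map y, (List.range n).map f) := by
  have y1 : ∀ l, y (encode (true, l)) = true ↔ P l := fun l => by rw [hy, dB_enc]; simp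
  have y2 : ∀ l : List ℕ, y (encode (false, l)) = true ↔ l = (List.range l.length).map cv := fun l => by
    rw [hy, dB_enc]; simp
  refine ⟨fun w => ∀ j < w.2.2.length, ∀ m < w.2.2.length, ∀ i < w.2.2.length, ∀ a < w.2.2.length,
    ∀ b < w.2.2.length, bd j m i b ≤ w.2.2.length → psi j m i a b (fun n => w.1.getD n false)
      (fun n => w.2.1.getD n false) fun n => w.2.2.getD n 0,
    (pred (by unfold psi bd; fun_prop)).computablePred, fun z => Iff.trans (b := ∃ f, ∀ j m i a b,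
      psi j m i a b z y f) ⟨?_, ?_⟩ (exists_congr fun f => ⟨fun h n j _ m _ i _ a _ b _ k => ?_, fun h j m i a b => ?_⟩)⟩
  · rintro ⟨x, ⟨h1, h2⟩, rfl⟩
    have : ∀ m, ∃ s : ℕ, ∃ g : ℕ → ℕ, m ≤ cv m → (s = 0 → g 0 = m ∧ ∀ i, ch cv (g (i + 1)) (g i)) ∧
        (s ≠ 0 → g m ≠ 0 ∧ g m ≤ m + 1 ∧ ∀ i j q, ch cv i j → g j = q + 1 → ∃ p, g i = p + 1 ∧ ch x p q) :=
      fun m => by
        by_cases c : m ≤ cv m
        · rcases h2 m c with ⟨g, z⟩ | ⟨g, z⟩
          · exact ⟨0, g, fun _ => ⟨fun _ => z, fun w => (w rfl).elim⟩⟩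
          · exact ⟨1, g, fun _ => ⟨fun w => (one_ne_zero w).elim, fun _ => z⟩⟩
        · exact ⟨0, id, fun w => (c w).elim⟩
    choose s g hg using this
    refine ⟨fun n => match n.unpair.1 with
      | 0 => x n.unpair.2
      | 1 => cv n.unpair.2
      | 2 => s n.unpair.2
      | m + 3 => g m n.unpair.2, fun j m i a b => ?_⟩
    simp only [psi, Nat.unpair_pair]
    refine ⟨decide_eq_true_iff, fun w => (y1 _).2 (w ▸ h1 _), (y2 _).2, fun c => ⟨fun w => ⟨((hg m c).1 w).1, ?_⟩,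
      fun w => ⟨⟨((hg m c).2 w).1, ((hg m c).2 w).2.1⟩, fun d1 d2 d3 => ?_⟩⟩⟩
    · rintro rfl rfl
      exact ((hg m c).1 w).2 i
    · obtain ⟨p, p1, p2⟩ := ((hg m c).2 w).2.2 i j a ⟨d1, d2⟩ d3
      exact ⟨by omega, fun v => (show p = b by omega) ▸ p2⟩
  · rintro ⟨f, h⟩
    have e : (fun k => f (Nat.pair 1 k)) = cv := funext fun k => by
      have := (h (encode ((List.range (k + 1)).map fun k => f (Nat.pair 1 k))) 0 0 0 0).2.2.1
      rw [dS_enc, y2] at this
      simpa [List.getD_eq_getElem?_getD] using congrArg (fun l => l.getD k 0) (this (by simp))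
    have e' : ∀ k, f (Nat.pair 1 k) = cv k := congrFun e
    refine ⟨fun k => f (Nat.pair 0 k), ⟨fun n => ?_, fun m c => ?_⟩, funext fun j => ?_⟩
    · have := (h (encode ((List.range n).map fun k => f (Nat.pair 0 k))) 0 0 0 0).2.1
      rw [dS_enc, y1] at this
      exact this (by simp)
    · rw [← e'] at c
      by_cases w : f (Nat.pair 2 m) = 0
      · exact .inl ⟨fun i => f (Nat.pair (m + 3) i), (((h 0 m 0 0 0).2.2.2 c).1 w).1, fun i => by
          have := (((h 0 m i _ _).2.2.2 c).1 w).2 rfl rfl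
          rwa [e'] at this⟩
      · refine .inr ⟨fun i => f (Nat.pair (m + 3) i), (((h 0 m 0 0 0).2.2.2 c).2 w).1.1,
          (((h 0 m 0 0 0).2.2.2 c).2 w).1.2, fun i j q d1 d2 => ?_⟩
        have := fun b => (((h j m i q b).2.2.2 c).2 w).2 ((e' i).trans d1.1) d1.2 d2
        obtain ⟨p, hp⟩ := Nat.exists_eq_succ_of_ne_zero (this 0).1
        exact ⟨p, hp, (this p).2 hp⟩
    · rw [Bool.eq_iff_iff, (h j 0 0 0 0).1]
      exact decide_eq_true_iff.symm
  · refine psi_congr (fun r w => ?_) (h j m i a b)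
    have : r < n := by simpa using w.trans_le k
    simp [List.getD_eq_getElem?_getD, this]
  · have l : ∀ n, ((List.range n).map f).length = n := by simp
    refine psi_congr (fun r w => ?_) (h (j + m + i + a + b + bd j m i b + 1) j (by rw [l]; omega) m (by rw [l]; omega)
      i (by rw [l]; omega) a (by rw [l]; omega) b (by rw [l]; omega) (by rw [l]; omega))
    have : r < j + m + i + a + b + bd j m i b + 1 := by omega
    simp [List.getD_eq_getElem?_getD, this]

end Pool.Agent.H.MP_120e55_lc
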